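import Pool.Agent.V8H50.RL.Fin

/-!
Linear systems along the fibres whose weights have a large sum.
-/

set_option autoImplicit false
set_option linter.overlappingInstances false
set_option linter.unusedSectionVars false

open FF Pool.Agent.W603.LV Pool.Agent.W602.GT Pool.Agent.W602.Cov Pool.Agent.W602.Cov.G
open Pool.Agent.TH152.AC Pool.Agent.TH152.HY Pool.Agent.TH585.SV Pool.Agent.Y191
open Pool.Agent.Y172
open Pool.Agent.V8H50.MA (und over_uniq over_not_triv exists_under trdeg_sub comb)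

namespace Pool.Agent.V8H50.RL

section

variable {K K' : Type} [Field K] [Field K'] [Algebra ℂ K] [Algebra ℂ K'] [Algebra K K']
  [IsScalarTower ℂ K K'] {L : IntermediateField ℂ K} [FiniteDimensional K K'] {d k n q : ℕ}
variable {A : Fin q → Fin (n + 1) → K'} {x : Fin (n + 1) → K'} {Λ : ℝ} {X : Set (Place ℂ K)}
  {δ : Place ℂ K → ℝ}

theorem Good.mono {w w' : Fin q → ℚ} (h : Good L A x w Λ X δ) (h0 : ∀ i, 0 ≤ w' i)
    (hle : ∀ i, w' i ≤ w i) (hs : (n + 1 : ℚ) ≤ ∑ i, w' i) : Good L A x w' Λ X δ :=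
  ⟨h0, hs, fun S hS => (Finset.sum_le_sum fun i _ => hle i).trans (h.2.2.1 S hS),
    h.2.2.2.mono hle⟩

/-- **The forms of the weights.** -/
theorem exists_s (htr : Algebra.trdeg L K = d)
    (hAa : ∀ i k, IsAlgebraic (upF K' L) (A i k)) (hA0 : ∀ i, ∃ k, A i k ≠ 0)
    (hgf : Algebra.IsAlgebraic
      (IntermediateField.adjoin (upF K' L) {z | ∃ i j, z = x i / x j}) K')
    (hli : ∀ c : Fin (n + 1) → K', (∀ j, IsAlgebraic (upF K' L) (c j)) → ∑ j, c j * x j = 0 →
      c = 0) {w : Fin q → ℚ} (hw : Good L A x w Λ X δ) (hbig : (n + 1 : ℚ) < ∑ i, w i) :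
    ∃ (M₁ : ℕ) (s : Fin (d + 1) → Fin q → ℕ), 0 < M₁ ∧ (∀ b, ∑ i, s b i = (n + 1) * M₁) ∧
      (∀ b, Good L A x (fun i => (s b i : ℚ) / M₁) Λ X δ) ∧
      AlgebraicIndependent (upF K' L) fun b : Fin d =>
        (∏ i, mv A x i ^ s 0 i) / ∏ i, mv A x i ^ s b.succ i := by
  classical
  have hl : ∀ i, mv A x i ≠ 0 := fun i => mv_ne hAa hli (hA0 i)
  obtain ⟨I, hI, hIw⟩ := pos_basis' hw.1 hw.2.1 hw.2.2.1
  have hinj := inj_of_dI hI
  obtain ⟨κ, hκ, ht⟩ := members_basis (trdeg_upF (K' := K') htr) hgf hAa hl hI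
  have hsum : 0 < ∑ i, w i := lt_trans (by positivity) hbig
  obtain ⟨τ, hτ⟩ : ∃ τ : ℚ, τ = (n + 1) / ∑ i, w i := ⟨_, rfl⟩
  have hτ0 : 0 < τ := by
    rw [hτ]
    positivity
  have hτ1 : τ < 1 := by
    rw [hτ, div_lt_one hsum]
    exact hbig
  have hτs : τ * ∑ i, w i = n + 1 := by
    rw [hτ, div_mul_cancel₀ _ hsum.ne']
  obtain ⟨M, hM, hMf⟩ := exists_cden (ι := Fin q ⊕ Fin q)
    (Sum.elim (fun x => τ * w x) fun x => w x) (by
      rintro (x | x)
      · exact mul_nonneg hτ0.le (hw.1 _)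
      · exact hw.1 _)
  have hM' : (0 : ℚ) < M := by exact_mod_cast hM
  choose s hs using fun i => hMf (Sum.inl i)
  choose sw hsw using fun i => hMf (Sum.inr i)
  change ∀ i, (s i : ℚ) = M * (τ * w i) at hs
  change ∀ i, (sw i : ℚ) = M * w i at hsw
  have hssum : ∑ i, s i = (n + 1) * M := by
    have h1 : ((∑ i, s i : ℕ) : ℚ) = (((n + 1) * M : ℕ) : ℚ) := by
      push_cast
      simp only [hs]
      rw [← Finset.mul_sum, ← Finset.mul_sum, hτs]
      ring
    exact_mod_cast h1
  have hpos : ∀ k, 1 ≤ s (I k) := by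
    intro k
    have h1 : (0 : ℚ) < s (I k) := by
      rw [hs]
      exact mul_pos hM' (mul_pos hτ0 (hIw k))
    exact_mod_cast h1
  have hgap : ∀ k, (s (I k) + 1 : ℚ) ≤ M * w (I k) := by
    intro k
    have h2 : (s (I k) : ℚ) < sw (I k) := by
      rw [hs, hsw]
      refine mul_lt_mul_of_pos_left ?_ hM'
      have := hIw k
      nlinarith
    have h3 : s (I k) + 1 ≤ sw (I k) := by exact_mod_cast h2
    rw [← hsw]
    exact_mod_cast h3
  have hsle : ∀ i, (s i : ℚ) ≤ M * w i := by
    intro i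
    rw [hs]
    refine mul_le_mul_of_nonneg_left ?_ hM'.le
    have := hw.1 i
    nlinarith
  obtain ⟨v, hv⟩ : ∃ v : Fin d → Fin q → ℕ, v = fun b i =>
      s i + (if i = I 0 then 1 else 0) - (if i = I (κ b).succ then 1 else 0) := ⟨_, rfl⟩
  have hadd : ∀ b i, v b i + (if i = I (κ b).succ then 1 else 0) =
      s i + (if i = I 0 then 1 else 0) := by
    intro b i
    rw [hv]
    change s i + (if i = I 0 then 1 else 0) - (if i = I (κ b).succ then 1 else 0) +
      (if i = I (κ b).succ then 1 else 0) = _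
    have h0 : I (κ b).succ ≠ I 0 := fun h => Fin.succ_ne_zero _ (hinj h)
    by_cases h1 : i = I (κ b).succ
    · have h2 := hpos (κ b).succ
      rw [if_pos h1, h1, if_neg h0]
      omega
    · rw [if_neg h1]
      omega
  have hvsum : ∀ b, ∑ i, v b i = (n + 1) * M := by
    intro b
    have h1 : ∑ i, (v b i + (if i = I (κ b).succ then 1 else 0)) =
        ∑ i, (s i + (if i = I 0 then 1 else 0)) := Finset.sum_congr rfl fun i _ => hadd b i
    rw [Finset.sum_add_distrib, Finset.sum_add_distrib, Finset.sum_ite_eq',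
      Finset.sum_ite_eq', if_pos (Finset.mem_univ _), if_pos (Finset.mem_univ _), hssum] at h1
    omega
  have hvle : ∀ b i, (v b i : ℚ) ≤ M * w i := by
    intro b i
    have h1 : v b i ≤ s i + (if i = I 0 then 1 else 0) := by
      have := hadd b i
      omega
    by_cases h2 : i = I 0
    · rw [if_pos h2] at h1
      have h3 : (v b i : ℚ) ≤ s i + 1 := by exact_mod_cast h1
      refine h3.trans ?_
      rw [h2]
      exact hgap 0
    · rw [if_neg h2, add_zero] at h1
      have h3 : (v b i : ℚ) ≤ s i := by exact_mod_cast h1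
      exact h3.trans (hsle i)
  obtain ⟨S, hS⟩ : ∃ S : Fin (d + 1) → Fin q → ℕ, S = Fin.cons s v := ⟨_, rfl⟩
  have hS0 : S 0 = s := by rw [hS]; rfl
  have hSs : ∀ b : Fin d, S b.succ = v b := fun b => by rw [hS]; rfl
  have hSsum : ∀ b, ∑ i, S b i = (n + 1) * M := by
    intro b
    refine Fin.cases ?_ (fun b => ?_) b
    · rw [hS0]
      exact hssum
    · rw [hSs]
      exact hvsum b
  have hSle : ∀ b i, (S b i : ℚ) ≤ M * w i := by
    intro b i
    refine Fin.cases ?_ (fun b => ?_) b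
    · rw [hS0]
      exact hsle i
    · rw [hSs]
      exact hvle b i
  refine ⟨M, S, hM, hSsum, fun b => ?_, ?_⟩
  · refine hw.mono (fun i => by positivity) (fun i => ?_) ?_
    · rw [div_le_iff₀ hM', mul_comm]
      exact hSle b i
    · rw [← Finset.sum_div, le_div_iff₀ hM']
      have h1 : ((∑ i, S b i : ℕ) : ℚ) = (((n + 1) * M : ℕ) : ℚ) := by rw [hSsum]
      push_cast at h1
      rw [h1]
  · have h1 : (fun b : Fin d => (∏ i, mv A x i ^ S 0 i) / ∏ i, mv A x i ^ S b.succ i) =
        fun b => mv A x (I (κ b).succ) / mv A x (I 0) := by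
      funext b
      rw [hS0, hSs]
      have h2 : (∏ i, mv A x i ^ v b i) * mv A x (I (κ b).succ) =
          (∏ i, mv A x i ^ s i) * mv A x (I 0) := by
        have h3 : ∀ j : Fin q, mv A x j = ∏ i, mv A x i ^ (if i = j then 1 else 0) := by
          intro j
          have h4 : ∀ i, mv A x i ^ (if i = j then 1 else 0) = if i = j then mv A x i else 1 := by
            intro i
            split_ifs
            · rw [pow_one]
            · rw [pow_zero]
          simp only [h4]
          rw [Finset.prod_ite_eq' Finset.univ j, if_pos (Finset.mem_univ _)]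
        rw [h3 (I (κ b).succ), h3 (I 0), ← Finset.prod_mul_distrib, ← Finset.prod_mul_distrib]
        refine Finset.prod_congr rfl fun i _ => ?_
        rw [← pow_add, ← pow_add, hadd b i]
      have h3 : ∏ i, mv A x i ^ v b i ≠ 0 := Finset.prod_ne_zero_iff.2 fun i _ =>
        pow_ne_zero _ (hl i)
      rw [div_eq_div_iff h3 (hl _)]
      rw [← h2]
      ring
    rw [h1]
    exact ht.1

end

end Pool.Agent.V8H50.RL
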