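import Pool.Agent.Y191.MovForm
import Pool.Agent.Helper386.D5V.Helper399_OverDefs

/-!
Definitions: members of a linear system along the fibres, with coefficients which are algebraic over
the base, and the multiplicities of the divisors.
-/

set_option autoImplicit false

open FF Pool.Agent.Y191

namespace Pool.Agent.V8H50.RL

section

variable {K : Type} [Field K] {n q : ℕ}

/-- the values of the members -/
def mv (A : Fin q → Fin (n + 1) → K) (x : Fin (n + 1) → K) (i : Fin q) : K := ∑ k, A i k * x k

/-- the determinant of a tuple of members -/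
noncomputable def dI (A : Fin q → Fin (n + 1) → K) (I : Fin (n + 1) → Fin q) : K :=
  (Matrix.of fun k a => A (I k) a).det

open Classical in
/-- The greatest sum of the `e (I k)`, over all bases `I` of members. -/
noncomputable def mx (A : Fin q → Fin (n + 1) → K) (e : Fin q → ℕ) : ℕ :=
  (Finset.univ.filter fun I : Fin (n + 1) → Fin q => dI A I ≠ 0).sup fun I => ∑ k, e (I k)

end

section

variable {K K' : Type} [Field K] [Field K'] [Algebra ℂ K] [Algebra ℂ K'] [Algebra K K']
  {n q : ℕ}

open Classical in
/-- The condition on the multiplicities at the places of `K'` over the prime divisors `P` of `X` which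
are trivial on `L`: if `ε` is the ramification index, and `e i` are the multiplicities of the members,
then `lam * ε (1 - δ) ≤ mx e - ∑ w i * e i`, or `ε (1 - δ) ≤ 1` if all `e i` are zero. -/
def Hor (L : IntermediateField ℂ K) (A : Fin q → Fin (n + 1) → K') (x : Fin (n + 1) → K')
    (w : Fin q → ℚ) (lam : ℝ) (X : Set (Place ℂ K)) (δ : Place ℂ K → ℝ) : Prop :=
  ∀ P ∈ X, (∀ f ∈ L, f ≠ 0 → P.ord f = 0) → ∀ (Q : Place ℂ K') (ε : ℕ), Over Q P ε →
    ∀ (c : ℤ) (e : Fin q → ℕ), MOrd Q A x c e →
      if ∃ i, e i ≠ 0 then lam * (ε * (1 - δ P)) ≤ mx A e - ∑ i, (w i : ℝ) * e i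
      else ε * (1 - δ P) ≤ 1

/-- The weights `w i` are admissible: they are not negative, their sum is at least `n + 1`, the
configuration of hyperplanes `A i` in `n`-dimensional projective space with the weights `w i` is log
canonical (for all sets `S` of hyperplanes with a common point the sum of the weights is at most the
codimension of the intersection), and the condition `Hor` on the multiplicities holds. -/
def Good (L : IntermediateField ℂ K) (A : Fin q → Fin (n + 1) → K') (x : Fin (n + 1) → K')
    (w : Fin q → ℚ) (lam : ℝ) (X : Set (Place ℂ K)) (δ : Place ℂ K → ℝ) : Prop :=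
  (∀ i, 0 ≤ w i) ∧ (n + 1 : ℚ) ≤ ∑ i, w i ∧
    (∀ S : Finset (Fin q), Module.finrank K' ↥(Submodule.span K' (A '' (S : Set (Fin q)))) ≤ n →
      ∑ i ∈ S, w i ≤ Module.finrank K' ↥(Submodule.span K' (A '' (S : Set (Fin q))))) ∧
    Hor L A x w lam X δ

/-- The number of pairs `(t, k)` with `I t k = i`: the multiplicity of the member `i` in the family
`I` of `M` tuples. -/
def cnt {M : ℕ} (I : Fin M → Fin (n + 1) → Fin q) (i : Fin q) : ℕ :=
  ∑ t, ∑ k, if I t k = i then 1 else 0

/-- The moduli part of the family of members, with respect to the family `I` of `M` bases, is at least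
`g` at the place `v` of the base: at each place `Q` of `K'` over `v`, of ramification index `e`, the
order of `∏ t, dI A (I t)` is greater by at least `M e g` than the order of `∏ t, dI A (J t)` for a
family `J` of bases with the same multiplicities. -/
def ModGe (L : IntermediateField ℂ K) (A : Fin q → Fin (n + 1) → K') {M : ℕ}
    (I : Fin M → Fin (n + 1) → Fin q) (v : Place ℂ L) (g : ℝ) : Prop :=
  ∀ (Q : Place ℂ K') (e : ℕ), 0 < e →
    (∀ f : L, Q.ord (algebraMap K K' (f : K)) = e * v.ord f) →
    ∃ J : Fin M → Fin (n + 1) → Fin q, (∀ t, dI A (J t) ≠ 0) ∧ (∀ i, cnt J i = cnt I i) ∧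
      (M : ℝ) * (e * g) ≤ ((Q.ord (∏ t, dI A (I t)) - Q.ord (∏ t, dI A (J t)) : ℤ) : ℝ)

end

end Pool.Agent.V8H50.RL
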