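import Pool.Agent.V8H50.RL.Words
import Pool.Agent.V8H50.RL.Defs

/-!
The forms of a linear system with moving members, and their orders.
-/

set_option autoImplicit false
set_option linter.unusedSectionVars false

open FF Pool.Agent.W603.LV Pool.Agent.W602.GT Pool.Agent.W602.Cov Pool.Agent.W602.Cov.G
open Pool.Agent.TH152.AC Pool.Agent.TH152.HY Pool.Agent.TH585.SV Pool.Agent.Y191

namespace Pool.Agent.V8H50.RL

variable {d k n q : ℕ} {K : Type} [Field K]

variable [Algebra ℂ K]

/-- the form -/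
noncomputable def fm (e : Fin (d + 1) ⊕ Fin k ≃ Fin (n + 1)) (A : Fin q → Fin (n + 1) → K)
    (x : Fin (n + 1) → K) (S : Fin k → List (Letter d q)) (M : ℕ) (s : Fin q → ℕ) (C : K)
    (D : Fin d → Derivation ℂ K K) : K :=
  C * pw e D (mv A x) x S ^ M / ∏ i, mv A x i ^ s i

theorem wd_const {D : Fin d → Derivation ℂ K K} (g : Fin q → K) {c : K} (hc : ∀ l, D l c = 0)
    (w : List (Letter d q)) (f : K) : wd D g w (c * f) = c * wd D g w f := by
  induction w with
  | nil => rfl
  | cons I w ih =>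
    change op D g I (wd D g w (c * f)) = c * op D g I (wd D g w f)
    rw [ih, op_mul]
    have h1 : dl D g I c = 0 := by
      unfold dl
      rw [Matrix.det_eq_zero_of_column_eq_zero I.2, zero_div]
      intro i
      rw [Matrix.updateCol_self]
      refine Fin.cases rfl (fun l => ?_) i
      exact hc l
    rw [h1, zero_mul, add_zero]

theorem rl_const {D : Fin d → Derivation ℂ K K} (g : Fin q → K) {c : K} (hc : ∀ l, D l c = 0)
    (S : Fin k → List (Letter d q)) (a : Fin (d + 1) ⊕ Fin k) (f : K) :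
    rl D g S a (c * f) = c * rl D g S a f := by
  rcases a with i | a
  · refine Fin.cases ?_ (fun l => ?_) i
    · rfl
    · rw [rl_succ, rl_succ, (D l).leibniz, hc, smul_zero, add_zero, smul_eq_mul]
  · rw [rl_inr, rl_inr, wd_const g hc]

/-- the coordinates given by a tuple of members -/
theorem pw_members (e : Fin (d + 1) ⊕ Fin k ≃ Fin (n + 1)) {D : Fin d → Derivation ℂ K K}
    (g : Fin q → K) {A : Fin q → Fin (n + 1) → K} (hA : ∀ l i k, D l (A i k) = 0)
    (x : Fin (n + 1) → K) (S : Fin k → List (Letter d q)) (I : Fin (n + 1) → Fin q) :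
    pw e D g (fun b => mv A x (I b)) S = dI A I * pw e D g x S := by
  have h1 : (Matrix.of fun a b : Fin (d + 1) ⊕ Fin k => rl D g S a (mv A x (I (e b)))) =
      (Matrix.of fun a b : Fin (d + 1) ⊕ Fin k => rl D g S a (x (e b))) *
        ((Matrix.of fun k a => A (I k) a).submatrix e e).transpose := by
    ext a b
    rw [Matrix.mul_apply, Matrix.of_apply]
    unfold mv
    rw [map_sum, ← Equiv.sum_comp e]
    refine Finset.sum_congr rfl fun j _ => ?_
    rw [rl_const g (fun l => hA l _ _), mul_comm]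
    rfl
  unfold pw
  rw [h1, Matrix.det_mul, Matrix.det_transpose, Matrix.det_submatrix_equiv_self, mul_comm]
  rfl

/-- **Logarithmic vector fields.** -/
theorem fm_log {P : Place ℂ K} {D : Fin d → Derivation ℂ K K} (hD : ∀ i, DerLog P (D i))
    (e : Fin (d + 1) ⊕ Fin k ≃ Fin (n + 1)) {A : Fin q → Fin (n + 1) → K}
    (hA : ∀ l i k, D l (A i k) = 0) {x : Fin (n + 1) → K} (hl : ∀ i, mv A x i ≠ 0)
    (S : Fin k → List (Letter d q)) {M : ℕ} {s : Fin q → ℕ} {J : Fin M → Fin (n + 1) → Fin q}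
    (hJ : ∀ f : Fin q → K, ∏ t, ∏ k, f (J t k) = ∏ i, f i ^ s i) :
    Ge P 0 (fm e A x S M s (∏ t, dI A (J t)) D) := by
  have h1 : fm e A x S M s (∏ t, dI A (J t)) D =
      ∏ t, (dI A (J t) * pw e D (mv A x) x S / ∏ k, mv A x (J t k)) := by
    unfold fm
    rw [Finset.prod_div_distrib, Finset.prod_mul_distrib, Finset.prod_const, Finset.card_univ,
      Fintype.card_fin, hJ]
  rw [h1]
  have h2 : ∀ t, Ge P 0 (dI A (J t) * pw e D (mv A x) x S / ∏ k, mv A x (J t k)) := by
    intro t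
    have h3 := ge_pw_log hD (g := mv A x) hl e (fun b => mv A x (J t b)) S
    rw [pw_members e (mv A x) hA x S (J t)] at h3
    have h4 := ge_div (g := ∏ k, mv A x (J t k)) (Finset.prod_ne_zero_iff.2 fun k _ => hl _) h3
    rw [ord_prod P _ _ fun k => hl _, sub_self] at h4
    exact h4
  have h3 := Ge.prod (P := P) Finset.univ _ (fun _ => (0 : ℤ)) fun t (_ : t ∈ Finset.univ) => h2 t
  simpa using h3

/-- the orders at places which are trivial on the coefficients, on logarithmic vector fields -/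
theorem fm_supp {P : Place ℂ K} {D : Fin d → Derivation ℂ K K} (hD : ∀ i, DerLog P (D i))
    (e : Fin (d + 1) ⊕ Fin k ≃ Fin (n + 1)) {A : Fin q → Fin (n + 1) → K}
    (hA : ∀ l i k, D l (A i k) = 0) {x : Fin (n + 1) → K} (hl : ∀ i, mv A x i ≠ 0)
    (S : Fin k → List (Letter d q)) {M : ℕ} {s : Fin q → ℕ} (hs : ∑ i, s i = (n + 1) * M)
    {C : K} (hC : Ge P 0 C) {I : Fin (n + 1) → Fin q} (hI : dI A I ≠ 0)
    (hI0 : P.ord (dI A I) = 0) {c : ℤ} {ε : Fin q → ℕ} (ho : MOrd P A x c ε) :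
    Ge P ((M : ℤ) * ∑ k, (ε (I k) : ℤ) - ∑ i, (s i : ℤ) * ε i) (fm e A x S M s C D) := by
  have hlo : ∀ i, P.ord (mv A x i) = c + ε i := fun i => ho.2.2 i
  have h1 : Ge P ((n + 1 : ℕ) * c + ∑ k, (ε (I k) : ℤ)) (pw e D (mv A x) x S) := by
    have h3 := ge_pw_log hD (g := mv A x) hl e (fun b => mv A x (I b)) S
    rw [pw_members e (mv A x) hA x S I] at h3
    have h4 := ge_div (g := dI A I) hI h3
    rw [mul_div_cancel_left₀ _ hI, hI0, sub_zero] at h4
    refine h4.mono (le_of_eq ?_)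
    simp only [hlo]
    rw [Finset.sum_add_distrib, Finset.sum_const, Finset.card_univ, Fintype.card_fin, nsmul_eq_mul]
  have hden0 : ∏ i, mv A x i ^ s i ≠ 0 := Finset.prod_ne_zero_iff.2 fun i _ =>
    pow_ne_zero _ (hl i)
  have hdo : P.ord (∏ i, mv A x i ^ s i) = M * ((n + 1 : ℕ) * c) + ∑ i, (s i : ℤ) * ε i := by
    rw [ord_prod P _ _ fun i => pow_ne_zero _ (hl i)]
    have h1 : ∀ i, P.ord (mv A x i ^ s i) = s i * c + s i * ε i := by
      intro i
      rw [P.ord_pow, hlo]
      ring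
    simp only [h1]
    rw [Finset.sum_add_distrib, ← Finset.sum_mul]
    congr 1
    have h2 : ∑ i, (s i : ℤ) = (n + 1 : ℕ) * M := by exact_mod_cast hs
    rw [h2]
    ring
  have h2 := ge_div hden0 (hC.mul (h1.pow M))
  rw [hdo] at h2
  refine h2.mono (le_of_eq ?_)
  ring

/-- places where all members have the same order, on regular vector fields -/
theorem fm_unit {P : Place ℂ K} {D : Fin d → Derivation ℂ K K} (hD : ∀ i, DerReg P (D i))
    (e : Fin (d + 1) ⊕ Fin k ≃ Fin (n + 1)) {A : Fin q → Fin (n + 1) → K}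
    {x : Fin (n + 1) → K} (hl : ∀ i, mv A x i ≠ 0)
    (S : Fin k → List (Letter d q)) {M : ℕ} {s : Fin q → ℕ} (hs : ∑ i, s i = (n + 1) * M)
    {C : K} (hC : Ge P 0 C) {c : ℤ} {ε : Fin q → ℕ} (ho : MOrd P A x c ε) (hε : ∀ i, ε i = 0) :
    Ge P 0 (fm e A x S M s C D) := by
  have hlo : ∀ i, P.ord (mv A x i) = c := fun i => by
    have h0 : P.ord (mv A x i) = c + ε i := ho.2.2 i
    rw [h0, hε i]
    simp
  have h1 := ge_pw_unit (P := P) hD (g := mv A x) hl (a := c) hlo e (y := x)
    (fun b => ho.1 b) S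
  have hden0 : ∏ i, mv A x i ^ s i ≠ 0 := Finset.prod_ne_zero_iff.2 fun i _ =>
    pow_ne_zero _ (hl i)
  have hdo : P.ord (∏ i, mv A x i ^ s i) = M * ((n + 1) * c) := by
    rw [ord_prod P _ _ fun i => pow_ne_zero _ (hl i)]
    have h1 : ∀ i, P.ord (mv A x i ^ s i) = s i * c := by
      intro i
      rw [P.ord_pow, hlo]
    simp only [h1]
    rw [← Finset.sum_mul]
    have h2 : ∑ i, (s i : ℤ) = (n + 1 : ℕ) * M := by exact_mod_cast hs
    rw [h2]
    push_cast
    ring
  have h2 := ge_div hden0 (hC.mul (h1.pow M))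
  rw [hdo] at h2
  refine h2.mono (le_of_eq ?_)
  ring

/-- the form under a change of the vector fields -/
theorem fm_change {e : Fin (d + 1) ⊕ Fin k ≃ Fin (n + 1)} {A : Fin q → Fin (n + 1) → K}
    {x : Fin (n + 1) → K} {S : Fin k → List (Letter d q)} (M : ℕ) (s : Fin q → ℕ) (C : K)
    {D0 : Fin d → Derivation ℂ K K} (hS : MinW e D0 (mv A x) x S)
    (B : Matrix (Fin d) (Fin d) K) {D1 : Fin d → Derivation ℂ K K}
    (h1 : D1 = fun i => ∑ j, B i j • D0 j) (N : Matrix (Fin d) (Fin d) K)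
    {D2 : Fin d → Derivation ℂ K K} (h2 : D2 = fun i => ∑ j, N i j • D1 j) :
    fm e A x S M s C D2 = N.det ^ ((1 + ∑ a, (S a).length) * M) * fm e A x S M s C D1 := by
  have h3 : D2 = fun i => ∑ j, (N * B) i j • D0 j := by
    rw [h2]
    funext i
    refine Derivation.ext fun z => ?_
    have hap : ∀ (c : Fin d → K) (E : Fin d → Derivation ℂ K K) (f : K),
        (∑ j, c j • E j) f = ∑ j, c j * E j f := by
      intro c E f
      rw [← Derivation.coeFnAddMonoidHom_apply, map_sum, Finset.sum_apply]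
      rfl
    rw [hap, hap]
    have h4 : ∀ j, N i j * D1 j z = ∑ l, N i j * (B j l * D0 l z) := by
      intro j
      rw [h1]
      change N i j * (∑ l, B j l • D0 l) z = _
      rw [hap, Finset.mul_sum]
    simp only [h4]
    rw [Finset.sum_comm]
    refine Finset.sum_congr rfl fun l _ => ?_
    rw [Matrix.mul_apply, Finset.sum_mul]
    exact Finset.sum_congr rfl fun j _ => by ring
  have h4 := pw_change hS B
  rw [← h1] at h4
  have h5 := pw_change hS (N * B)
  rw [← h3] at h5
  unfold fm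
  rw [h5, h4, Matrix.det_mul, mul_pow, mul_pow, mul_pow, mul_pow, pow_mul N.det]
  ring

end Pool.Agent.V8H50.RL
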