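import Pool.Agent.V8H50.RL.Sec

/-!
The Kodaira dimension of pairs with a linear system with powerful members along the fibres.
-/

set_option autoImplicit false
set_option linter.overlappingInstances false
set_option linter.unusedSectionVars false

open FF Pool.Agent.W603.LV Pool.Agent.W602.GT Pool.Agent.W602.Cov Pool.Agent.W602.Cov.G
open Pool.Agent.TH152.AC Pool.Agent.TH152.HY Pool.Agent.TH585.SV Pool.Agent.Y191
open Pool.Agent.Y172
open Pool.Agent.V8H50.MA (und over_uniq over_not_triv exists_under trdeg_sub comb)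

namespace Pool.Agent.V8H50.RL

section

variable {K K' : Type} [Field K] [Field K'] [Algebra ℂ K] [Algebra ℂ K'] [Algebra K K']
  [IsScalarTower ℂ K K'] {L : IntermediateField ℂ K} [FiniteDimensional K K'] {d k n q : ℕ}
variable {A : Fin q → Fin (n + 1) → K'} {x : Fin (n + 1) → K'} {Λ : ℝ} {X : Set (Place ℂ K)}
  {δ : Place ℂ K → ℝ}

/-- smaller weights -/
theorem Hor.mono {w w' : Fin q → ℚ} (h : Hor L A x w Λ X δ) (hw : ∀ i, w' i ≤ w i) :
    Hor L A x w' Λ X δ := by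
  classical
  intro P hP htr Q ε hQ c e' ho
  have h1 := h P hP htr Q ε hQ c e' ho
  split_ifs with he
  · rw [if_pos he] at h1
    refine h1.trans (sub_le_sub_left (Finset.sum_le_sum fun i _ => ?_) _)
    have h2 : (w' i : ℝ) ≤ w i := by exact_mod_cast hw i
    exact mul_le_mul_of_nonneg_right h2 (Nat.cast_nonneg _)
  · rwa [if_neg he] at h1

/-- convex combinations of weights -/
theorem Hor.comb {w w' : Fin q → ℚ} (h : Hor L A x w Λ X δ) (h' : Hor L A x w' Λ X δ) {α β : ℚ}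
    (hα : 0 ≤ α) (hβ : 0 ≤ β) (hαβ : α + β = 1) :
    Hor L A x (fun i => α * w i + β * w' i) Λ X δ := by
  classical
  intro P hP htr Q ε hQ c e' ho
  have h1 := h P hP htr Q ε hQ c e' ho
  have h2 := h' P hP htr Q ε hQ c e' ho
  have hα' : (0 : ℝ) ≤ α := by exact_mod_cast hα
  have hβ' : (0 : ℝ) ≤ β := by exact_mod_cast hβ
  have hs : (α : ℝ) + β = 1 := by exact_mod_cast hαβ
  split_ifs with he
  · rw [if_pos he] at h1 h2
    have h3 : ∑ i, ((α * w i + β * w' i : ℚ) : ℝ) * e' i =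
        α * ∑ i, (w i : ℝ) * e' i + β * ∑ i, (w' i : ℝ) * e' i := by
      rw [Finset.mul_sum, Finset.mul_sum, ← Finset.sum_add_distrib]
      refine Finset.sum_congr rfl fun i _ => ?_
      push_cast
      ring
    rw [h3]
    have h4 := mul_le_mul_of_nonneg_left h1 hα'
    have h5 := mul_le_mul_of_nonneg_left h2 hβ'
    have h6 : Λ * (ε * (1 - δ P)) = α * (Λ * (ε * (1 - δ P))) + β * (Λ * (ε * (1 - δ P))) := by
      rw [← add_mul, hs, one_mul]
    have h7 : (mx A e' : ℝ) = α * mx A e' + β * mx A e' := by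
      rw [← add_mul, hs, one_mul]
    rw [h6, h7]
    linarith
  · rwa [if_neg he] at h1

theorem pw_ne {K : Type} [Field K] [Algebra ℂ K] {e : Fin (d + 1) ⊕ Fin k ≃ Fin (n + 1)}
    {D : Fin d → Derivation ℂ K K} {g : Fin q → K} {x : Fin (n + 1) → K}
    {S : Fin k → List (Letter d q)} (h : MinW e D g x S) : pw e D g x S ≠ 0 := by
  rw [← phi_eq_pw]
  exact h.ne

/-- **The form of `I`.** -/
theorem rel_one {p a M : ℕ} (hdk : d + k = n) (hess : Algebra.EssFiniteType ℂ K)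
    (hp : Algebra.trdeg ℂ L = p) (hK : Algebra.trdeg ℂ K = (p + d : ℕ)) (hM : 0 < M)
    (hAa : ∀ i k, IsAlgebraic (upF K' L) (A i k)) (hA0 : ∀ i, ∃ k, A i k ≠ 0)
    (hgf : Algebra.IsAlgebraic
      (IntermediateField.adjoin (upF K' L) {z | ∃ i j, z = x i / x j}) K')
    (hli : ∀ c : Fin (n + 1) → K', (∀ j, IsAlgebraic (upF K' L) (c j)) → ∑ j, c j * x j = 0 →
      c = 0) {w : Fin q → ℚ} (hΛ : ((k + 1) * (k + 2) : ℝ) = 2 * Λ) (hw : Good L A x w Λ X δ)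
    {I : Fin M → Fin (n + 1) → Fin q} (hI : ∀ t, dI A (I t) ≠ 0)
    (hIw : ∀ i, (cnt I i : ℚ) ≤ M * w i) {B g : Place ℂ L → ℝ} (hg0 : ∀ v ∈ und L X, 0 ≤ g v)
    (hg : ∀ v ∈ und L X, Divisorial p v → ModGe L A I v (g v))
    (hδ : ∀ P ∈ X, ∀ (v : Place ℂ L) (e₀ : ℕ), Over P v e₀ → 1 - δ P ≤ e₀ * (1 - B v))
    (hB : KodairaGe p (und L X) (fun v => B v + g v / Λ) a) :
    KodairaGe (p + d) X δ a := by
  classical
  have hl : ∀ i, mv A x i ≠ 0 := fun i => mv_ne hAa hli (hA0 i)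
  have hx : ∃ k, x k ≠ 0 := by
    by_contra hcon
    push Not at hcon
    have h1 := hli (fun _ => 1) (fun _ => isAlgebraic_one) (Finset.sum_eq_zero fun j _ => by
      rw [hcon, mul_zero])
    exact one_ne_zero (congrFun h1 0)
  obtain ⟨e⟩ : Nonempty (Fin (d + 1) ⊕ Fin k ≃ Fin (n + 1)) :=
    ⟨finSumFinEquiv.trans (finCongr (by omega))⟩
  obtain ⟨κ, S, D0, hκ, ht, hS, hspan⟩ := exists_setup e (trdeg_upF (K' := K')
    (trdeg_sub hp hK)) hgf hAa hl hli (hI ⟨0, hM⟩)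
  have hCI : ∏ t, dI A (I t) ≠ 0 := Finset.prod_ne_zero_iff.2 fun t _ => hI t
  have hCa : IsAlgebraic (upF K' L) (∏ t, dI A (I t)) := by
    have h1 : (∏ t, dI A (I t)) ∈ algebraicClosure (upF K' L) K' :=
      prod_mem fun t _ => mem_algebraicClosure_iff.2 (alg_det fun k a => hAa _ _)
    exact mem_algebraicClosure_iff.1 h1
  have hle : ((1 + ∑ a, (S a).length : ℕ) : ℝ) ≤ Λ := by
    have h1 : ((2 * (1 + ∑ a, (S a).length) : ℕ) : ℝ) ≤ ((k + 1) * (k + 2) : ℕ) := by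
      exact_mod_cast hS.le
    push_cast at h1 ⊢
    linarith
  have hΛ0 : 0 < Λ := by
    have h1 : (0 : ℝ) < (k + 1) * (k + 2) := by positivity
    linarith
  refine rel_gen (lam := 0) (s := fun _ => cnt I) (C := fun _ => ∏ t, dI A (I t))
    (w := fun _ => w) (g := fun v => g v / Λ) hess hp hK hM hAa hx hl hS hspan ⟨_, hI ⟨0, hM⟩⟩
    (fun _ => cnt_sum I) (fun _ => hIw)
    (fun _ e => seq_sm hI (fun R _ f => cnt_prod I f) e) (fun _ => hCa) ⟨D0, ?_, ?_⟩ hle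
    (fun _ => hw.2.2.2) (fun P hP v e₀ h hvd Q ε hQ G hG hlog _ => ?_) hδ hB
  · unfold fm
    exact div_ne_zero (mul_ne_zero hCI (pow_ne_zero _ (pw_ne hS)))
      (Finset.prod_ne_zero_iff.2 fun i _ => pow_ne_zero _ (hl i))
  · rw [algebraicIndependent_empty_type_iff]
    exact (algebraMap (upF K' L) K').injective
  · refine (fm_mod e hl S hI (hg v ⟨P, hP, e₀, h⟩ hvd) h hQ hG hlog).mono ?_
    have h1 : (0 : ℝ) ≤ g v := hg0 v ⟨P, hP, e₀, h⟩
    have h2 : (0 : ℝ) ≤ M * (ε * (e₀ * g v)) := by positivity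
    have h3 : (((1 + ∑ a, (S a).length) * M : ℕ) : ℝ) * (ε * (e₀ * (g v / Λ))) =
        ((1 + ∑ a, (S a).length : ℕ) : ℝ) / Λ * (M * (ε * (e₀ * g v))) := by
      push_cast
      ring
    rw [h3]
    have h4 : ((1 + ∑ a, (S a).length : ℕ) : ℝ) / Λ ≤ 1 := (div_le_one hΛ0).2 hle
    exact mul_le_of_le_one_left h2 h4

/-- **The forms of `I` and the forms of the fibres.** -/
theorem rel_main {p a lam M M₁ : ℕ} (hdk : d + k = n) (hess : Algebra.EssFiniteType ℂ K)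
    (hp : Algebra.trdeg ℂ L = p) (hK : Algebra.trdeg ℂ K = (p + d : ℕ)) (hM : 0 < M)
    (hAa : ∀ i k, IsAlgebraic (upF K' L) (A i k)) (hA0 : ∀ i, ∃ k, A i k ≠ 0)
    (hgf : Algebra.IsAlgebraic
      (IntermediateField.adjoin (upF K' L) {z | ∃ i j, z = x i / x j}) K')
    (hli : ∀ c : Fin (n + 1) → K', (∀ j, IsAlgebraic (upF K' L) (c j)) → ∑ j, c j * x j = 0 →
      c = 0) {w : Fin q → ℚ} (hΛ : ((k + 1) * (k + 2) : ℝ) = 2 * Λ) (hw : Good L A x w Λ X δ)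
    {I : Fin M → Fin (n + 1) → Fin q} (hI : ∀ t, dI A (I t) ≠ 0)
    (hIw : ∀ i, (cnt I i : ℚ) ≤ M * w i) {B g : Place ℂ L → ℝ} (hg0 : ∀ v ∈ und L X, 0 ≤ g v)
    (hg : ∀ v ∈ und L X, Divisorial p v → ModGe L A I v (g v))
    (hδ : ∀ P ∈ X, ∀ (v : Place ℂ L) (e₀ : ℕ), Over P v e₀ → 1 - δ P ≤ e₀ * (1 - B v))
    (hM₁ : 0 < M₁) {s : Fin (lam + 1) → Fin q → ℕ} (hs : ∀ b, ∑ i, s b i = (n + 1) * M₁)
    (hsw : ∀ b, Good L A x (fun i => (s b i : ℚ) / M₁) Λ X δ)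
    (hind : AlgebraicIndependent (upF K' L) fun b : Fin lam =>
      (∏ i, mv A x i ^ s 0 i) / ∏ i, mv A x i ^ s b.succ i)
    {τ : ℝ} (hτ : τ < 1) (hB : KodairaGe p (und L X) (fun v => B v + τ * (g v / Λ)) a) :
    KodairaGe (p + d) X δ (a + lam) := by
  classical
  have hl : ∀ i, mv A x i ≠ 0 := fun i => mv_ne hAa hli (hA0 i)
  have hx : ∃ k, x k ≠ 0 := by
    by_contra hcon
    push Not at hcon
    have h1 := hli (fun _ => 1) (fun _ => isAlgebraic_one) (Finset.sum_eq_zero fun j _ => by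
      rw [hcon, mul_zero])
    exact one_ne_zero (congrFun h1 0)
  have htrU := trdeg_upF (K' := K') (trdeg_sub hp hK)
  obtain ⟨e⟩ : Nonempty (Fin (d + 1) ⊕ Fin k ≃ Fin (n + 1)) :=
    ⟨finSumFinEquiv.trans (finCongr (by omega))⟩
  obtain ⟨κ, S, D0, hκ, ht, hS, hspan⟩ := exists_setup e htrU hgf hAa hl hli (hI ⟨0, hM⟩)
  have hM₁q : (0 : ℚ) < M₁ := by exact_mod_cast hM₁
  have hJ : ∀ b, ∃ J : Fin M₁ → Fin (n + 1) → Fin q, (∀ t, dI A (J t) ≠ 0) ∧
      ∀ (R : Type) [CommMonoid R] (f : Fin q → R), ∏ t, ∏ k, f (J t k) = ∏ i, f i ^ s b i :=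
    fun b => exists_J (hsw b).2.2.1 hM₁ (hs b) fun i => by
      rw [mul_div_cancel₀ _ hM₁q.ne']
  choose J hJ0 hJ using hJ
  have hCI : ∏ t, dI A (I t) ≠ 0 := Finset.prod_ne_zero_iff.2 fun t _ => hI t
  have hCJ : ∀ b, ∏ t, dI A (J b t) ≠ 0 := fun b =>
    Finset.prod_ne_zero_iff.2 fun t _ => hJ0 b t
  have hCIa : (∏ t, dI A (I t)) ∈ algebraicClosure (upF K' L) K' :=
    prod_mem fun t _ => mem_algebraicClosure_iff.2 (alg_det fun k a => hAa _ _)
  have hCJa : ∀ b, (∏ t, dI A (J b t)) ∈ algebraicClosure (upF K' L) K' := fun b =>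
    prod_mem fun t _ => mem_algebraicClosure_iff.2 (alg_det fun k a => hAa _ _)
  have hle : ((1 + ∑ a, (S a).length : ℕ) : ℝ) ≤ Λ := by
    have h1 : ((2 * (1 + ∑ a, (S a).length) : ℕ) : ℝ) ≤ ((k + 1) * (k + 2) : ℕ) := by
      exact_mod_cast hS.le
    push_cast at h1 ⊢
    linarith
  have hΛ0 : 0 < Λ := by
    have h1 : (0 : ℝ) < (k + 1) * (k + 2) := by positivity
    linarith
  have hMr : (0 : ℝ) < M := by exact_mod_cast hM
  have hM₁r : (0 : ℝ) < M₁ := by exact_mod_cast hM₁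
  -- the number of copies
  obtain ⟨T, hT⟩ := exists_nat_gt (|τ| * M₁ / (M * (1 - τ)))
  have hpos : 0 < (M : ℝ) * (1 - τ) := mul_pos hMr (by linarith)
  have hT1 : |τ| * M₁ < T * (M * (1 - τ)) := (div_lt_iff₀ hpos).1 hT
  have hT0 : 0 < T := by
    have h1 : (0 : ℝ) ≤ |τ| * M₁ / (M * (1 - τ)) := by positivity
    have h2 : (0 : ℝ) < T := lt_of_le_of_lt h1 hT
    exact_mod_cast h2
  have hM2 : 0 < T * M + M₁ := by omega
  have hM2r : (0 : ℝ) < ((T * M + M₁ : ℕ) : ℝ) := by exact_mod_cast hM2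
  have hM2q : (0 : ℚ) < ((T * M + M₁ : ℕ) : ℚ) := by exact_mod_cast hM2
  obtain ⟨τ', hτ'⟩ : ∃ τ' : ℝ, τ' = T * M / ((T * M + M₁ : ℕ) : ℝ) := ⟨_, rfl⟩
  have hττ' : τ ≤ τ' := by
    rw [hτ', le_div_iff₀ hM2r]
    push_cast
    have h1 : τ ≤ |τ| := le_abs_self τ
    nlinarith
  have hτM : ((T * M + M₁ : ℕ) : ℝ) * τ' = T * M := by
    rw [hτ', mul_div_cancel₀ _ hM2r.ne']
  -- the weights
  obtain ⟨α, hα⟩ : ∃ α : ℚ, α = T * M / ((T * M + M₁ : ℕ) : ℚ) := ⟨_, rfl⟩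
  obtain ⟨β, hβ⟩ : ∃ β : ℚ, β = M₁ / ((T * M + M₁ : ℕ) : ℚ) := ⟨_, rfl⟩
  have hα0 : 0 ≤ α := by
    rw [hα]
    positivity
  have hβ0 : 0 ≤ β := by
    rw [hβ]
    positivity
  have hαβ : α + β = 1 := by
    rw [hα, hβ, ← add_div, div_eq_one_iff_eq hM2q.ne']
    push_cast
    ring
  have hmov : ∀ b (G : Fin d → Derivation ℂ K' K'),
      fm e A x S (T * M + M₁) (fun i => T * cnt I i + s b i)
        ((∏ t, dI A (I t)) ^ T * ∏ t, dI A (J b t)) G =
      fm e A x S M (cnt I) (∏ t, dI A (I t)) G ^ T *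
        fm e A x S M₁ (s b) (∏ t, dI A (J b t)) G := fun b G =>
    fm_mul e A x S (cnt I) (s b) _ _ T G
  have hpw : pw e (rs D0) (mv A x) x S ≠ 0 := pw_ne hS
  have hden : ∀ s : Fin q → ℕ, ∏ i, mv A x i ^ s i ≠ 0 := fun s =>
    Finset.prod_ne_zero_iff.2 fun i _ => pow_ne_zero _ (hl i)
  have hIne : fm e A x S M (cnt I) (∏ t, dI A (I t)) (rs D0) ^ T ≠ 0 := by
    refine pow_ne_zero _ ?_
    unfold fm
    exact div_ne_zero (mul_ne_zero hCI (pow_ne_zero _ hpw)) (hden _)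
  have hJne : ∀ b, fm e A x S M₁ (s b) (∏ t, dI A (J b t)) (rs D0) ≠ 0 := by
    intro b
    unfold fm
    exact div_ne_zero (mul_ne_zero (hCJ b) (pow_ne_zero _ hpw)) (hden _)
  refine rel_gen (lam := lam) (M := T * M + M₁) (s := fun b i => T * cnt I i + s b i)
    (C := fun b => (∏ t, dI A (I t)) ^ T * ∏ t, dI A (J b t))
    (w := fun b i => α * w i + β * ((s b i : ℚ) / M₁)) (g := fun v => τ' * (g v / Λ))
    hess hp hK hM2 hAa hx hl hS hspan ⟨_, hI ⟨0, hM⟩⟩ (fun b => ?_) (fun b i => ?_)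
    (fun b e' => ?_) (fun b => ?_) ⟨D0, ?_, ?_⟩ hle
    (fun b => hw.2.2.2.comb (hsw b).2.2.2 hα0 hβ0 hαβ)
    (fun P hP v e₀ h hvd Q ε hQ G hG hlog b => ?_) hδ ?_
  · rw [Finset.sum_add_distrib, ← Finset.mul_sum, cnt_sum, hs b]
    ring
  · have h1 := mul_le_mul_of_nonneg_left (hIw i) (Nat.cast_nonneg (α := ℚ) T)
    have h2 : ((T * M + M₁ : ℕ) : ℚ) * (α * w i + β * ((s b i : ℚ) / M₁)) =
        T * (M * w i) + s b i := by
      rw [hα, hβ]
      field_simp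
    rw [h2]
    push_cast
    linarith
  · have h1 := seq_sm hI (fun R _ f => cnt_prod I f) e'
    have h2 := seq_sm (hJ0 b) (fun R _ f => hJ b R f) e'
    calc ∑ i, (T * cnt I i + s b i) * e' i = T * ∑ i, cnt I i * e' i + ∑ i, s b i * e' i := by
          rw [Finset.mul_sum, ← Finset.sum_add_distrib]
          exact Finset.sum_congr rfl fun i _ => by ring
      _ ≤ T * (M * mx A e') + M₁ * mx A e' := add_le_add (Nat.mul_le_mul_left _ h1) h2
      _ = (T * M + M₁) * mx A e' := by ring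
  · exact mem_algebraicClosure_iff.1 (mul_mem (pow_mem hCIa T) (hCJa b))
  · rw [hmov]
    exact mul_ne_zero hIne (hJne 0)
  · simp only [hmov]
    have h1 : (fun i : Fin lam =>
        fm e A x S M (cnt I) (∏ t, dI A (I t)) (rs D0) ^ T *
          fm e A x S M₁ (s i.succ) (∏ t, dI A (J i.succ t)) (rs D0) /
        (fm e A x S M (cnt I) (∏ t, dI A (I t)) (rs D0) ^ T *
          fm e A x S M₁ (s 0) (∏ t, dI A (J 0 t)) (rs D0))) =
        fun i : Fin lam => ((∏ t, dI A (J i.succ t)) / ∏ t, dI A (J 0 t)) *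
          ((∏ j, mv A x j ^ s 0 j) / ∏ j, mv A x j ^ s i.succ j) := by
      funext i
      rw [mul_div_mul_left _ _ hIne]
      unfold fm
      have h2 := hden (s 0)
      have h3 := hden (s i.succ)
      have h4 := hCJ 0
      have h5 := hCJ i.succ
      have h6 : pw e (rs D0) (mv A x) x S ^ M₁ ≠ 0 := pow_ne_zero _ hpw
      field_simp
    rw [h1]
    refine ind_const htrU hind (fun i => ?_) fun i => div_ne_zero (hCJ _) (hCJ _)
    exact mem_algebraicClosure_iff.1 (div_mem (hCJa _) (hCJa _))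
  · rw [hmov]
    have h1 := fm_mod e hl S hI (hg v ⟨P, hP, e₀, h⟩ hvd) h hQ hG hlog
    have h2 := fm_log (P := Q) hlog e hG hl S (J := J b) (s := s b) (M := M₁)
      fun f => hJ b K' f
    have h3 : GeR Q 0 (fm e A x S M₁ (s b) (∏ t, dI A (J b t)) G) := by
      rcases h2 with h2 | h2
      · exact Or.inl h2
      · right
        exact_mod_cast h2
    refine ((h1.pow T).mul h3).mono ?_
    rw [add_zero]
    have h4 : (0 : ℝ) ≤ g v := hg0 v ⟨P, hP, e₀, h⟩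
    have h5 : (0 : ℝ) ≤ T * (M * (ε * (e₀ * g v))) := by positivity
    have h6 : (((1 + ∑ a, (S a).length) * (T * M + M₁) : ℕ) : ℝ) *
        (ε * (e₀ * (τ' * (g v / Λ)))) =
        ((1 + ∑ a, (S a).length : ℕ) : ℝ) / Λ * (T * (M * (ε * (e₀ * g v)))) := by
      have h7 : (((1 + ∑ a, (S a).length) * (T * M + M₁) : ℕ) : ℝ) *
          (ε * (e₀ * (τ' * (g v / Λ)))) = ((1 + ∑ a, (S a).length : ℕ) : ℝ) / Λ *
          ((((T * M + M₁ : ℕ) : ℝ) * τ') * (ε * (e₀ * g v))) := by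
        push_cast
        ring
      rw [h7, hτM]
      ring
    rw [h6]
    exact mul_le_of_le_one_left h5 ((div_le_one hΛ0).2 hle)
  · obtain ⟨N, hN, η, hη, D, hD⟩ := hB
    refine ⟨N, hN, η, fun j => ⟨(hη j).1, fun v hv hvd D hD => ?_⟩, D, hD⟩
    rcases (hη j).2 v hv hvd D hD with h1 | h1
    · exact Or.inl h1
    · right
      refine le_trans ?_ h1
      have h2 : 0 ≤ g v / Λ := div_nonneg (hg0 v hv) hΛ0.le
      have h3 : τ * (g v / Λ) ≤ τ' * (g v / Λ) := mul_le_mul_of_nonneg_right hττ' h2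
      have h4 : (0 : ℝ) ≤ N := Nat.cast_nonneg _
      nlinarith

end

end Pool.Agent.V8H50.RL
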