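import Pool.Agent.Y191.LiftDet

/-!
Regular frames along the fibres from logarithmic ones, at places which are trivial on the base.
-/

set_option autoImplicit false
set_option linter.overlappingInstances false
set_option linter.unusedSectionVars false

open FF Pool.Agent.W602.GT Pool.Agent.W603.LV Pool.Agent.TH585.SV Pool.Agent.Y191
open Pool.Agent.Y172 (Kills)

namespace Pool.Agent.V8H50.RL

theorem ge_one_iff {K : Type} [Field K] [Algebra ℂ K] {Q : Place ℂ K} {z : K} (hz : Q.Reg z) :
    Q.red z = 0 ↔ Ge Q 1 z := by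
  rw [Q.red_eq_zero_iff hz]
  constructor
  · rintro (h | h)
    · exact Or.inl h
    · exact Or.inr (by omega)
  · rintro (h | h)
    · exact Or.inl h
    · exact Or.inr (by omega)

theorem sum_smul_ap {k K : Type} [Field k] [Field K] [Algebra k K] {e : ℕ} (c : Fin e → K)
    (E : Fin e → Derivation k K K) (f : K) : (∑ j, c j • E j) f = ∑ j, c j * E j f := by
  rw [← Derivation.coeFnAddMonoidHom_apply, map_sum, Finset.sum_apply]
  rfl

/-- **A relation of logarithmic vector fields along a divisor.** -/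
theorem exists_rel {K : Type} [Field K] [Algebra ℂ K] {L : IntermediateField ℂ K} {e : ℕ}
    (htr : Algebra.trdeg L K = e) {Q : Place ℂ K}
    (hQ : ∀ f ∈ L, f ≠ 0 → Q.ord f = 0) {E : Fin e → Derivation ℂ K K}
    (hE : ∀ i, DerLog Q (E i)) (hk : ∀ i, Kills (E i) L) :
    ∃ (b : Fin e → K) (i0 : Fin e), b i0 = 1 ∧ (∀ i, Q.Reg (b i)) ∧
      ∀ f, Q.Reg f → Ge Q 1 (∑ i, b i * E i f) := by
  classical
  have hreg : ∀ i f, Q.Reg f → Q.Reg (E i f) := by
    intro i f hf
    by_cases h0 : f = 0
    · rw [h0, map_zero]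
      exact Q.reg_zero
    · have h1 := Q.reg_mul (hE i f) hf
      rwa [div_mul_cancel₀ _ h0] at h1
  obtain ⟨v, hv⟩ : ∃ v : K → Fin e → Q.RF, ∀ f, v f = fun i => Q.red (E i f) :=
    ⟨_, fun _ => rfl⟩
  obtain ⟨S, hS⟩ : ∃ S : Set (Fin e → Q.RF), S = v '' {f | Q.Reg f} := ⟨_, rfl⟩
  have hne : Submodule.span Q.RF S ≠ ⊤ := by
    intro htop
    obtain ⟨f, hf, -, hli⟩ := Submodule.exists_fun_fin_finrank_span_eq Q.RF S
    have hr : Module.finrank Q.RF ↥(Submodule.span Q.RF S) = e := by
      rw [htop, finrank_top, Module.finrank_fin_fun]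
    have hf' : ∀ i, ∃ g, Q.Reg g ∧ v g = f i := by
      intro i
      have h1 := hf i
      rw [hS] at h1
      exact h1
    choose g hg hgv using hf'
    obtain ⟨g', hg'⟩ : ∃ g' : Fin e → K, ∀ l, g' l = g (Fin.cast hr.symm l) := ⟨_, fun _ => rfl⟩
    have hg'r : ∀ l, Q.Reg (g' l) := fun l => by
      rw [hg']
      exact hg _
    have hdet := det_log_unit htr hQ hE hk (f := g') fun l => (reg_iff_ge _ _).1 (hg'r l)
    obtain ⟨N, hN⟩ : ∃ N : Matrix (Fin e) (Fin e) Q.O, N = Matrix.of fun i l =>
      (⟨E i (g' l), hreg i _ (hg'r l)⟩ : Q.O) := ⟨_, rfl⟩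
    have hNd : ((N.det : Q.O) : K) = (Matrix.of fun i l => E i (g' l)).det := by
      have h1 := RingHom.map_det Q.O.subtype N
      change ((N.det : Q.O) : K) = _ at h1
      rw [h1, hN]
      rfl
    have h0 : Q.resHom N.det = 0 := by
      have h1 : Q.Reg (N.det : K) := (N.det).2
      have h2 : Q.red (N.det : K) = Q.resHom N.det := Q.red_of_reg h1
      rw [← h2, ge_one_iff h1, hNd]
      exact hdet
    rw [RingHom.map_det] at h0
    have h3 : LinearIndependent Q.RF fun l : Fin e => f (Fin.cast hr.symm l) :=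
      hli.comp (Fin.cast hr.symm) (Fin.cast_injective _)
    have h4 : (Q.resHom.mapMatrix N) = (Matrix.of fun l i => f (Fin.cast hr.symm l) i).transpose := by
      ext i l
      rw [Matrix.transpose_apply, Matrix.of_apply, ← hgv, hv, RingHom.mapMatrix_apply,
        Matrix.map_apply, hN, Matrix.of_apply]
      change _ = Q.red (E i (g (Fin.cast hr.symm l)))
      rw [← hg', Q.red_of_reg (hreg i _ (hg'r l))]
    rw [h4, Matrix.det_transpose] at h0
    have h5 : IsUnit (Matrix.of fun l i => f (Fin.cast hr.symm l) i) :=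
      Matrix.linearIndependent_rows_iff_isUnit.1 h3
    rw [Matrix.isUnit_iff_isUnit_det, h0] at h5
    exact not_isUnit_zero h5
  obtain ⟨φ, hφ0, hφ⟩ := Submodule.exists_le_ker_of_lt_top _ (lt_top_iff_ne_top.mpr hne)
  have hφs : ∀ y, φ y = ∑ j, φ (Pi.single j 1) * y j := by
    intro y
    rw [LinearMap.pi_apply_eq_sum_univ φ y]
    refine Finset.sum_congr rfl fun j _ => ?_
    rw [smul_eq_mul, mul_comm]
    congr 2
    funext k
    simp [Pi.single_apply, eq_comm]
  obtain ⟨i0, hi0⟩ : ∃ i, φ (Pi.single i 1) ≠ 0 := by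
    by_contra hcon
    push Not at hcon
    apply hφ0
    apply LinearMap.ext
    intro y
    rw [hφs y, LinearMap.zero_apply]
    exact Finset.sum_eq_zero fun j _ => by rw [hcon, zero_mul]
  have hlift : ∀ i, ∃ b, Q.Reg b ∧ Q.red b = φ (Pi.single i 1) / φ (Pi.single i0 1) := fun i =>
    Q.red_surjective _
  choose b0 hb0 hb0r using hlift
  obtain ⟨b, hb⟩ : ∃ b : Fin e → K, ∀ i, b i = if i = i0 then 1 else b0 i := ⟨_, fun _ => rfl⟩
  have hbr : ∀ i, Q.Reg (b i) := by
    intro i
    rw [hb]
    split_ifs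
    · exact Q.reg_one
    · exact hb0 i
  have hbred : ∀ i, Q.red (b i) = φ (Pi.single i 1) / φ (Pi.single i0 1) := by
    intro i
    rw [hb]
    split_ifs with h
    · rw [h, div_self hi0, Q.red_one]
    · exact hb0r i
  refine ⟨b, i0, by rw [hb, if_pos rfl], hbr, fun f hf => ?_⟩
  have hsr : ∀ s : Finset (Fin e), Q.Reg (∑ i ∈ s, b i * E i f) ∧
      Q.red (∑ i ∈ s, b i * E i f) = ∑ i ∈ s, Q.red (b i) * Q.red (E i f) := by
    intro s
    induction s using Finset.induction_on with
    | empty => simp [Q.reg_zero, Q.red_zero]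
    | insert a s ha ih =>
      rw [Finset.sum_insert ha, Finset.sum_insert ha]
      have h1 := Q.reg_mul (hbr a) (hreg a f hf)
      exact ⟨Q.reg_add h1 ih.1, by rw [Q.red_add h1 ih.1, Q.red_mul (hbr a) (hreg a f hf), ih.2]⟩
  rw [← ge_one_iff (hsr Finset.univ).1, (hsr Finset.univ).2]
  have h1 : φ (v f) = 0 := by
    have h2 : v f ∈ Submodule.span Q.RF S := Submodule.subset_span (by
      rw [hS]
      exact ⟨f, hf, rfl⟩)
    exact hφ h2
  rw [hφs, hv] at h1
  have h3 : ∑ i, Q.red (b i) * Q.red (E i f) =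
      (φ (Pi.single i0 1))⁻¹ * ∑ j, φ (Pi.single j 1) * Q.red (E j f) := by
    rw [Finset.mul_sum]
    refine Finset.sum_congr rfl fun i _ => ?_
    rw [hbred]
    ring
  rw [h3, h1, mul_zero]

/-- **Regular frames from logarithmic ones.** -/
theorem log_to_reg {K : Type} [Field K] [Algebra ℂ K] {L : IntermediateField ℂ K} {e : ℕ}
    (htr : Algebra.trdeg L K = e) {Q : Place ℂ K}
    (hQ : ∀ f ∈ L, f ≠ 0 → Q.ord f = 0) {E : Fin e → Derivation ℂ K K}
    (hE : ∀ i, DerLog Q (E i)) (hk : ∀ i, Kills (E i) L) :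
    ∃ A B : Matrix (Fin e) (Fin e) K, A * B = 1 ∧ (∀ i, DerReg Q (∑ j, B i j • E j)) ∧
      Ge Q 1 A.det := by
  classical
  obtain ⟨b, i0, hb1, hbr, hb⟩ := exists_rel htr hQ hE hk
  obtain ⟨t, ht0, ht⟩ := Q.surj
  have hreg : ∀ i f, Q.Reg f → Q.Reg (E i f) := by
    intro i f hf
    by_cases h0 : f = 0
    · rw [h0, map_zero]
      exact Q.reg_zero
    · have h1 := Q.reg_mul (hE i f) hf
      rwa [div_mul_cancel₀ _ h0] at h1
  obtain ⟨A, hA⟩ : ∃ A : Matrix (Fin e) (Fin e) K,
    A = (1 : Matrix (Fin e) (Fin e) K).updateRow i0 fun j => if j = i0 then t else -b j :=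
    ⟨_, rfl⟩
  obtain ⟨B, hB⟩ : ∃ B : Matrix (Fin e) (Fin e) K,
    B = (1 : Matrix (Fin e) (Fin e) K).updateRow i0 fun j => b j * t⁻¹ := ⟨_, rfl⟩
  refine ⟨A, B, ?_, fun i f hf => ?_, ?_⟩
  · ext i l
    rw [Matrix.mul_apply]
    by_cases hi : i = i0
    · subst hi
      have h1 : ∀ j, A i j * B j l = if j = i then t * (b l * t⁻¹) else
          (if j = l then -b j else 0) := by
        intro j
        rw [hA, Matrix.updateRow_self]
        by_cases hj : j = i
        · subst hj
          rw [if_pos rfl, if_pos rfl, hB, Matrix.updateRow_self]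
        · rw [if_neg hj, if_neg hj, hB, Matrix.updateRow_ne hj, Matrix.one_apply]
          split_ifs
          · rw [mul_one]
          · rw [mul_zero]
      simp only [h1]
      rw [← Finset.add_sum_erase _ _ (Finset.mem_univ i), if_pos rfl]
      have h2 : ∀ j ∈ Finset.univ.erase i, (if j = i then t * (b l * t⁻¹) else
          (if j = l then -b j else 0)) = if j = l then -b j else 0 := by
        intro j hj
        rw [if_neg (Finset.ne_of_mem_erase hj)]
      rw [Finset.sum_congr rfl h2, Finset.sum_ite_eq']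
      by_cases hl : l = i
      · subst hl
        rw [if_neg (Finset.notMem_erase _ _), add_zero, hb1, Matrix.one_apply_eq, one_mul,
          mul_inv_cancel₀ ht0]
      · rw [if_pos (Finset.mem_erase.mpr ⟨hl, Finset.mem_univ _⟩), Matrix.one_apply_ne (Ne.symm hl)]
        field_simp
        ring
    · have h1 : ∀ j, A i j = if i = j then 1 else 0 := by
        intro j
        rw [hA, Matrix.updateRow_ne hi, Matrix.one_apply]
      simp only [h1, ite_mul, one_mul, zero_mul, Finset.sum_ite_eq, Finset.mem_univ, if_true]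
      rw [hB, Matrix.updateRow_ne hi]
  · rw [sum_smul_ap]
    by_cases hi : i = i0
    · subst hi
      have h1 : ∑ j, B i j * E j f = t⁻¹ * ∑ j, b j * E j f := by
        rw [Finset.mul_sum]
        refine Finset.sum_congr rfl fun j _ => ?_
        rw [hB, Matrix.updateRow_self]
        ring
      rw [h1, reg_iff_ge]
      have h2 : Ge Q (-1) t⁻¹ := Or.inr (by rw [Q.ord_inv, ht])
      have h3 := h2.mul (hb f hf)
      refine h3.mono (by norm_num)
    · have h1 : ∀ j, B i j * E j f = if i = j then E j f else 0 := by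
        intro j
        rw [hB, Matrix.updateRow_ne hi, Matrix.one_apply]
        split_ifs
        · rw [one_mul]
        · rw [zero_mul]
      simp only [h1, Finset.sum_ite_eq, Finset.mem_univ, if_true]
      exact hreg i f hf
  · have h1 : A.det = t := by
      have h2 : A = ((1 : Matrix (Fin e) (Fin e) K).updateCol i0
          fun j => if j = i0 then t else -b j).transpose := by
        rw [hA, ← Matrix.updateRow_transpose, Matrix.transpose_one]
      rw [h2, Matrix.det_transpose, ← Matrix.cramer_apply, Matrix.cramer_one]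
      change (if i0 = i0 then t else -b i0) = t
      rw [if_pos rfl]
    rw [h1]
    right
    rw [ht]

end Pool.Agent.V8H50.RL
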