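import Pool.Agent.V8H50.RL.Est
import Pool.Agent.V8H50.RL.Frame
import Pool.Agent.Y191.LcLow

/-!
Coordinates given by the members of a linear system along the fibres.
-/

set_option autoImplicit false
set_option linter.overlappingInstances false
set_option linter.unusedSectionVars false

open FF Pool.Agent.W603.LV Pool.Agent.W602.GT Pool.Agent.W602.Cov Pool.Agent.W602.Cov.G
open Pool.Agent.TH152.AC Pool.Agent.TH152.HY Pool.Agent.TH585.SV Pool.Agent.Y191
open Pool.Agent.Y172 (Kills kills_alg)

namespace Pool.Agent.V8H50.RL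

variable {d k n q : ℕ} {K : Type} [Field K] [Algebra ℂ K] {L : IntermediateField ℂ K}

theorem frame_alg {t : Fin d → K} (ht : IsTranscendenceBasis L t)
    {G : Fin d → Derivation L K K} (hG : ∀ i b, G i (t b) = if i = b then 1 else 0) {c : K}
    (hc : ∀ i, G i c = 0) : IsAlgebraic L c := by
  classical
  have : CharZero L := charZero_of_injective_algebraMap (algebraMap ℂ L).injective
  by_contra hcon
  have h1 : c ∉ Pool.Agent.Y172.acl ℂ (L : Set K) := by
    intro h
    rw [Pool.Agent.Y172.mem_acl, IntermediateField.adjoin_self] at h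
    exact hcon h
  obtain ⟨D', h0, h2⟩ := Pool.Agent.Y172.exists_der_ne
    (Pool.Agent.Y172.acl_closed (k := ℂ) (L : Set K)) h1
  obtain ⟨D, hD⟩ : ∃ D : Derivation L K K, ∀ z, D z = D' z :=
    ⟨Pool.Agent.Y172.liftD D' L fun z hz => h0 z (Pool.Agent.Y172.subset_acl _ hz), fun _ => rfl⟩
  have h3 : D = ∑ b, D (t b) • G b := by
    refine der_ext t ht fun b => ?_
    rw [sum_smul_ap]
    simp [hG]
  have h4 : D c = ∑ b, D (t b) * G b c := by
    conv_lhs => rw [h3]
    rw [sum_smul_ap]
  rw [hD, h2] at h4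
  simp [hc] at h4

theorem exists_frame_dual {t : Fin d → K} (ht : IsTranscendenceBasis L t) :
    ∃ G : Fin d → Derivation L K K, (∀ i b, G i (t b) = if i = b then 1 else 0) ∧
      ∀ E : Fin d → Derivation L K K, ∃ B : Matrix (Fin d) (Fin d) K,
        E = fun i => ∑ j, B i j • G j := by
  classical
  have h1 : ∀ i : Fin d, ∃ D : Derivation L K K, ∀ b, D (t b) = if i = b then 1 else 0 :=
    fun i => exists_der (L := L) t ht _
  choose G hG using h1
  refine ⟨G, hG, fun E => ⟨Matrix.of fun i b => E i (t b), ?_⟩⟩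
  funext i
  refine der_ext t ht fun b => ?_
  rw [sum_smul_ap]
  simp [hG]

/-- **Coordinates given by members.** -/
theorem members_basis {A : Fin q → Fin (n + 1) → K} {x : Fin (n + 1) → K}
    (htr : Algebra.trdeg L K = d)
    (hgf : Algebra.IsAlgebraic (IntermediateField.adjoin L {z | ∃ i j, z = x i / x j}) K)
    (hAa : ∀ i k, IsAlgebraic L (A i k)) (hl : ∀ i, mv A x i ≠ 0) {I : Fin (n + 1) → Fin q}
    (hI : dI A I ≠ 0) :
    ∃ κ : Fin d → Fin n, Function.Injective κ ∧
      IsTranscendenceBasis L (fun b => mv A x (I (κ b).succ) / mv A x (I 0)) := by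
  classical
  have : CharZero L := charZero_of_injective_algebraMap (algebraMap ℂ L).injective
  obtain ⟨T, hT⟩ : ∃ T : Set K,
    T = Set.range fun k : Fin n => mv A x (I k.succ) / mv A x (I 0) := ⟨_, rfl⟩
  have hall : ∀ z : K, z ∈ Pool.Agent.Y172.acl L T := by
    intro z
    by_contra hcon
    obtain ⟨D, h1, h2⟩ := Pool.Agent.Y172.exists_der_ne
      (Pool.Agent.Y172.acl_closed (k := L) T) hcon
    have hk : Kills (D.restrictScalars ℂ) L := fun y hy => D.map_algebraMap (⟨y, hy⟩ : L)
    have hDA : ∀ i k, D (A i k) = 0 := fun i k => kills_alg hk (hAa i k)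
    obtain ⟨y, hy⟩ : ∃ y : Fin (n + 1) → K, ∀ a, y a = x a / mv A x (I 0) := ⟨_, fun _ => rfl⟩
    have hlam : ∀ k, ∑ a, A (I k) a * y a = mv A x (I k) / mv A x (I 0) := by
      intro k
      unfold mv
      rw [Finset.sum_div]
      refine Finset.sum_congr rfl fun a _ => ?_
      rw [hy, mul_div_assoc]
      rfl
    have hDlam : ∀ k, D (mv A x (I k) / mv A x (I 0)) = 0 := by
      intro k
      refine Fin.cases ?_ (fun k => ?_) k
      · rw [div_self (hl _), D.map_one_eq_zero]
      · exact h1 _ (Pool.Agent.Y172.subset_acl _ (by rw [hT]; exact ⟨k, rfl⟩))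
    have hmul : (Matrix.of fun k a => A (I k) a).mulVec (fun a => D (y a)) = 0 := by
      funext k
      rw [Matrix.mulVec, dotProduct, Pi.zero_apply, ← hDlam k, ← hlam k, map_sum]
      refine Finset.sum_congr rfl fun a _ => ?_
      rw [D.leibniz, hDA, smul_zero, add_zero, smul_eq_mul, Matrix.of_apply]
    have hDy : ∀ a, D (y a) = 0 := fun a =>
      congrFun (Matrix.eq_zero_of_mulVec_eq_zero hI hmul) a
    have hDx : ∀ i j, D (x i / x j) = 0 := by
      intro i j
      by_cases hj : x j = 0
      · rw [hj, div_zero, map_zero]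
      have h3 : x i / x j = y i / y j := by
        rw [hy, hy, div_div_div_cancel_right₀ (hl _)]
      rw [h3, Derivation.leibniz_div, hDy, hDy]
      simp
    have hkk : Kills D (IntermediateField.adjoin L {z | ∃ i j, z = x i / x j}) := by
      intro w hw
      have h4 : IntermediateField.adjoin L {z | ∃ i j, z = x i / x j} ≤ consts D := by
        rw [IntermediateField.adjoin_le_iff]
        rintro _ ⟨i, j, rfl⟩
        exact hDx i j
      exact h4 hw
    have h5 := kills_alg hkk (hgf.isAlgebraic z)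
    rw [h2] at h5
    exact one_ne_zero h5
  have halg : Algebra.IsAlgebraic (IntermediateField.adjoin L T) K :=
    ⟨fun z => Pool.Agent.Y172.mem_acl.1 (hall z)⟩
  have halg' : Algebra.IsAlgebraic (Algebra.adjoin L T) K := alg_adjoin halg
  obtain ⟨U, -, hUT, hU⟩ := exists_isTranscendenceBasis_between (R := L) (∅ : Set K) T
    (Set.empty_subset _) ((algebraicIndependent_empty_iff ..).mpr (algebraMap L K).injective)
  have hcard := hU.cardinalMk_eq_trdeg
  rw [htr] at hcard
  obtain ⟨φ⟩ : Nonempty (Fin d ≃ U) := by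
    rw [← Cardinal.eq, Cardinal.mk_fin]
    exact hcard.symm
  have hk : ∀ b : Fin d, ∃ k : Fin n, mv A x (I k.succ) / mv A x (I 0) = (φ b : K) := by
    intro b
    have h1 := hUT (φ b).2
    rw [hT] at h1
    exact h1
  choose κ hκ using hk
  refine ⟨κ, fun a b hab => ?_, ?_⟩
  · apply φ.injective
    apply Subtype.ext
    rw [← hκ a, ← hκ b, hab]
  · have h1 : (fun b => mv A x (I (κ b).succ) / mv A x (I 0)) = fun b => (φ b : K) :=
      funext fun b => hκ b
    rw [h1]
    exact hU.comp_equiv φ

/-- **Frames with a nonzero first block.** -/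
theorem frame_block {A : Fin q → Fin (n + 1) → K} {x : Fin (n + 1) → K}
    (hl : ∀ i, mv A x i ≠ 0) {I : Fin (n + 1) → Fin q} {κ : Fin d → Fin n}
    {G : Fin d → Derivation ℂ K K}
    (hG : ∀ i b, G i (mv A x (I (κ b).succ) / mv A x (I 0)) = if i = b then 1 else 0)
    (hGA : ∀ l i k, G l (A i k) = 0) :
    (∃ I0 : Fin (d + 1) → Fin q, bw G (fun j => mv A x (I0 j)) ≠ 0) ∧
      LinearIndependent K (blk G x) := by
  classical
  obtain ⟨lam, hlam⟩ : ∃ lam, lam = mv A x (I 0) := ⟨_, rfl⟩
  have hlam0 : lam ≠ 0 := by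
    rw [hlam]
    exact hl _
  obtain ⟨I0, hI0⟩ : ∃ I0 : Fin (d + 1) → Fin q, I0 = Fin.cons (I 0) fun b => I (κ b).succ :=
    ⟨_, rfl⟩
  obtain ⟨f, hf⟩ : ∃ f : Fin (d + 1) → K, f = Fin.cons 1 fun b =>
    mv A x (I (κ b).succ) / mv A x (I 0) := ⟨_, rfl⟩
  have hfm : (fun j => mv A x (I0 j)) = fun j => lam * f j := by
    funext j
    refine Fin.cases ?_ (fun b => ?_) j
    · rw [hI0, hf, Fin.cons_zero, Fin.cons_zero, mul_one, hlam]
    · rw [hI0, hf, Fin.cons_succ, Fin.cons_succ, hlam, mul_div_cancel₀ _ (hl _)]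
  have hbw1 : bw G f = 1 := by
    unfold bw
    have h1 : (Matrix.of fun i j : Fin (d + 1) =>
        (Fin.cases (f j) (fun l => G l (f j)) i : K)).det =
        (1 : Matrix (Fin d) (Fin d) K).det := by
      rw [Matrix.det_succ_column_zero, Fin.sum_univ_succ, Finset.sum_eq_zero, add_zero]
      · have h2 : f 0 = 1 := by rw [hf, Fin.cons_zero]
        have h3 : (Matrix.of fun i j : Fin (d + 1) =>
            (Fin.cases (f j) (fun l => G l (f j)) i : K)) 0 0 = 1 := h2
        rw [h3, Fin.val_zero, pow_zero, one_mul, one_mul]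
        congr 1
        ext i b
        rw [Matrix.submatrix_apply, Fin.succAbove_zero]
        change G i (f b.succ) = _
        rw [hf, Fin.cons_succ, hG, Matrix.one_apply]
      · intro i _
        have h2 : (Matrix.of fun i j : Fin (d + 1) =>
            (Fin.cases (f j) (fun l => G l (f j)) i : K)) i.succ 0 = 0 := by
          change G i (f 0) = 0
          rw [hf, Fin.cons_zero, (G i).map_one_eq_zero]
        rw [h2, mul_zero, zero_mul]
    rw [h1, Matrix.det_one]
  have hbw : bw G (fun j => mv A x (I0 j)) ≠ 0 := by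
    rw [hfm, (bwa d K).1, hbw1, mul_one]
    exact pow_ne_zero _ hlam0
  refine ⟨⟨I0, hbw⟩, ?_⟩
  rw [Fintype.linearIndependent_iff]
  intro c hc i
  have h1 : Matrix.vecMul c (Mat G fun j => mv A x (I0 j)) = 0 := by
    funext j
    rw [Matrix.vecMul, dotProduct, Pi.zero_apply]
    have h2 : ∀ i, (Mat G fun j => mv A x (I0 j)) i j = ∑ k, A (I0 j) k * blk G x i k := by
      intro i
      refine Fin.cases ?_ (fun l => ?_) i
      · rfl
      · change G l (mv A x (I0 j)) = ∑ k, A (I0 j) k * G l (x k)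
        unfold mv
        rw [map_sum]
        refine Finset.sum_congr rfl fun k _ => ?_
        rw [(G l).leibniz, hGA, smul_zero, add_zero, smul_eq_mul]
    simp only [h2, Finset.mul_sum]
    rw [Finset.sum_comm]
    refine Finset.sum_eq_zero fun k _ => ?_
    have h3 := congrFun hc k
    rw [Finset.sum_apply, Pi.zero_apply] at h3
    have h4 : ∑ i, c i * (A (I0 j) k * blk G x i k) =
        A (I0 j) k * ∑ i, (c i • blk G x i) k := by
      rw [Finset.mul_sum]
      refine Finset.sum_congr rfl fun i _ => ?_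
      rw [Pi.smul_apply, smul_eq_mul]
      ring
    rw [h4, h3, mul_zero]
  have h2 := Matrix.eq_zero_of_vecMul_eq_zero (by rw [← bw_mat]; exact hbw) h1
  exact congrFun h2 i

end Pool.Agent.V8H50.RL
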