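import Pool.Agent.V8H50.RL.Gen

/-!
The forms along the fibres and their orders at the places which are trivial on the base.
-/

set_option autoImplicit false
set_option linter.overlappingInstances false
set_option linter.unusedSectionVars false

open FF Pool.Agent.W603.LV Pool.Agent.W602.GT Pool.Agent.W602.Cov Pool.Agent.W602.Cov.G
open Pool.Agent.TH152.AC Pool.Agent.TH152.HY Pool.Agent.TH585.SV Pool.Agent.Y191
open Pool.Agent.Y172

namespace Pool.Agent.V8H50.RL

/-- vector fields over a subfield as vector fields over `ℂ` -/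
noncomputable def rs {K : Type} [Field K] [Algebra ℂ K] {L : IntermediateField ℂ K} {d : ℕ}
    (G : Fin d → Derivation L K K) : Fin d → Derivation ℂ K K :=
  fun i => (G i).restrictScalars ℂ

theorem rs_comb {K : Type} [Field K] [Algebra ℂ K] {L : IntermediateField ℂ K} {d : ℕ}
    (B : Matrix (Fin d) (Fin d) K) (G : Fin d → Derivation L K K) :
    rs (fun i => ∑ j, B i j • G j) = fun i => ∑ j, B i j • rs G j := by
  funext i
  refine Derivation.ext fun z => ?_
  rw [sum_smul_ap]
  change (∑ j, B i j • G j) z = _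
  rw [sum_smul_ap]
  rfl

section

variable {d k n q : ℕ} {K : Type} [Field K] [Algebra ℂ K] {L : IntermediateField ℂ K}

theorem fm_pluri {e : Fin (d + 1) ⊕ Fin k ≃ Fin (n + 1)} {A : Fin q → Fin (n + 1) → K}
    {x : Fin (n + 1) → K} {S : Fin k → List (Letter d q)} (M : ℕ) (s : Fin q → ℕ) (C : K)
    {D0 : Fin d → Derivation L K K} (hS : MinW e (rs D0) (mv A x) x S)
    (hspan : ∀ E : Fin d → Derivation L K K, ∃ B : Matrix (Fin d) (Fin d) K,
      E = fun i => ∑ j, B i j • D0 j) :
    IsPluri ((1 + ∑ a, (S a).length) * M) (fun G : Fin d → Derivation L K K =>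
      fm e A x S M s C (rs G)) := by
  intro N G
  obtain ⟨B, hB⟩ := hspan G
  have h1 : rs G = fun i => ∑ j, B i j • rs D0 j := by
    rw [hB, rs_comb]
  have h2 : rs (fun i => ∑ j, N i j • G j) = fun i => ∑ j, N i j • rs G j := rs_comb N G
  exact fm_change M s C hS B h1 N h2

end

section

variable {K K' : Type} [Field K] [Field K'] [Algebra ℂ K] [Algebra ℂ K'] [Algebra K K']
  [IsScalarTower ℂ K K'] {L : IntermediateField ℂ K} [FiniteDimensional K K'] {d k n q : ℕ}

/-- **The orders at the places which are trivial on the base.** -/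
theorem fm_hor (hL : Algebra.trdeg L K = d) {e : Fin (d + 1) ⊕ Fin k ≃ Fin (n + 1)}
    {A : Fin q → Fin (n + 1) → K'} (hAa : ∀ i k, IsAlgebraic (upF K' L) (A i k))
    {x : Fin (n + 1) → K'} (hl : ∀ i, mv A x i ≠ 0) {S : Fin k → List (Letter d q)}
    {D0 : Fin d → Derivation (upF K' L) K' K'} (hS : MinW e (rs D0) (mv A x) x S)
    (hspan : ∀ E : Fin d → Derivation (upF K' L) K' K', ∃ B : Matrix (Fin d) (Fin d) K',
      E = fun i => ∑ j, B i j • D0 j) {M : ℕ} {s : Fin q → ℕ} (hs : ∑ i, s i = (n + 1) * M)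
    {C : K'} (hC : IsAlgebraic (upF K' L) C)
    {P : Place ℂ K} {Q : Place ℂ K'} {ε : ℕ}
    (hQ : Over Q P ε) (htr : ∀ f ∈ L, f ≠ 0 → P.ord f = 0)
    {G : Fin d → Derivation L K K} (hG : ∀ i f, P.Reg f → P.Reg (G i f))
    {G' : Fin d → Derivation (upF K' L) K' K'}
    (hG' : ∀ i f, G' i (algebraMap K K' f) = algebraMap K K' (G i f))
    {c : ℤ} {ε' : Fin q → ℕ} (ho : MOrd Q A x c ε') :
    (∀ I : Fin (n + 1) → Fin q, dI A I ≠ 0 →
      Ge Q ((M : ℤ) * ∑ k, (ε' (I k) : ℤ) - ∑ i, (s i : ℤ) * ε' i -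
        ((1 + ∑ a, (S a).length) * M : ℕ) * ε) (fm e A x S M s C (rs G'))) ∧
    ((∀ i, ε' i = 0) → Ge Q (((1 + ∑ a, (S a).length) * M : ℕ) * (1 - ε))
      (fm e A x S M s C (rs G'))) := by
  classical
  obtain ⟨N1, N2, hlog, hMN, hM⟩ := reg_to_log2 (D := fun i => (G i).restrictScalars ℂ)
    (P := P) (fun i f hf => hG i f hf)
  obtain ⟨lam, hlam⟩ : ∃ lam : ℕ, lam = (1 + ∑ a, (S a).length) * M := ⟨_, rfl⟩
  rw [← hlam]
  obtain ⟨E', hE'⟩ : ∃ E' : Fin d → Derivation (upF K' L) K' K', E' = fun i =>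
    ∑ j, (N2.map (algebraMap K K')) i j • G' j := ⟨_, rfl⟩
  have hEv : ∀ i z, E' i z = ∑ j, algebraMap K K' (N2 i j) * G' j z := by
    intro i z
    rw [hE', sum_smul_ap]
    rfl
  have hElift : ∀ i z, rs E' i (algebraMap K K' z) =
      algebraMap K K' ((∑ j, N2 i j • (G j).restrictScalars ℂ : Derivation ℂ K K) z) := by
    intro i z
    change E' i _ = _
    rw [hEv, sum_smul_ap, map_sum]
    refine Finset.sum_congr rfl fun j _ => ?_
    rw [hG', map_mul]
    rfl
  have hElog : ∀ i, DerLog Q (rs E' i) := fun i => lift_log hQ (hlog i) (hElift i)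
  have hkill : ∀ i, Kills (rs E' i) (upF K' L) := fun i z hz =>
    (E' i).map_algebraMap (⟨z, hz⟩ : upF K' L)
  have hGE : G' = fun i => ∑ j, (N1.map (algebraMap K K')) i j • E' j := by
    funext i
    refine Derivation.ext fun z => ?_
    rw [sum_smul_ap]
    simp only [hEv, Matrix.map_apply, Finset.mul_sum]
    rw [Finset.sum_comm]
    have h1 : ∀ l, ∑ j, algebraMap K K' (N1 i j) * (algebraMap K K' (N2 j l) * G' l z) =
        (if i = l then 1 else 0) * G' l z := by
      intro l
      have h2 := congrFun (congrFun hMN i) l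
      rw [Matrix.mul_apply, Matrix.one_apply] at h2
      have h3 := congrArg (algebraMap K K') h2
      rw [map_sum, apply_ite (algebraMap K K'), map_one, map_zero] at h3
      rw [← h3, Finset.sum_mul]
      refine Finset.sum_congr rfl fun j _ => ?_
      rw [map_mul, mul_assoc]
    simp only [h1]
    simp
  obtain ⟨B, hB⟩ := hspan E'
  have hBr : rs E' = fun i => ∑ j, B i j • rs D0 j := by
    rw [hB, rs_comb]
  have hGr : rs G' = fun i => ∑ j, (N1.map (algebraMap K K')) i j • rs E' j := by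
    conv_lhs => rw [hGE]
    rw [rs_comb]
  have hch := fm_change M s C hS B hBr _ hGr
  rw [← hlam] at hch
  have hMge : Ge Q (-ε) (N1.map (algebraMap K K')).det := by
    have h0 : (N1.map (algebraMap K K')).det = algebraMap K K' N1.det :=
      (RingHom.map_det (algebraMap K K') N1).symm
    have h1 := (over_ge hQ).2 hM
    rw [h0]
    rwa [mul_neg, mul_one] at h1
  have hup : ∀ f ∈ upF K' L, f ≠ 0 → Q.ord f = 0 := by
    rintro f hf hf0
    obtain ⟨a, ha, rfl⟩ := mem_upF.1 hf
    have ha0 : a ≠ 0 := fun h => hf0 (by rw [h, map_zero])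
    rw [hQ.2, htr a ha ha0, mul_zero]
  have hC0 : Ge Q 0 C := triv_ge hup hC
  have hkA : ∀ l i k, rs E' l (A i k) = 0 := fun l i k => kills_alg (hkill l) (hAa i k)
  constructor
  · intro I hI
    have hIo : Q.ord (dI A I) = 0 := triv_ord0 hup (alg_det fun k a => hAa _ _) hI
    have h1 := fm_supp hElog e hkA hl S hs hC0 hI hIo ho
    rw [hch]
    refine ((hMge.pow lam).mul h1).mono (le_of_eq ?_)
    ring
  · intro h0
    obtain ⟨A', B', hAB, hreg, hA'⟩ := log_to_reg (trdeg_upF (K' := K') hL) hup hElog hkill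
    obtain ⟨G'', hG''⟩ : ∃ G'' : Fin d → Derivation ℂ K' K', G'' = fun i =>
      ∑ j, B' i j • rs E' j := ⟨_, rfl⟩
    have hreg' : ∀ i, DerReg Q (G'' i) := fun i => by
      rw [hG'']
      exact hreg i
    have h1 := fm_unit hreg' e hl S hs hC0 ho h0
    have h2 := fm_change M s C hS B hBr B' hG''
    rw [← hlam] at h2
    have h3 : fm e A x S M s C (rs E') = A'.det ^ lam * fm e A x S M s C G'' := by
      rw [h2, ← mul_assoc, ← mul_pow, ← Matrix.det_mul, hAB, Matrix.det_one, one_pow, one_mul]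
    rw [hch, h3]
    refine ((hMge.pow lam).mul ((hA'.pow lam).mul h1)).mono (le_of_eq ?_)
    ring

end

end Pool.Agent.V8H50.RL
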