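import Pool.Agent.V8H50.RL.Hor
import Pool.Agent.V8H50.MA.Comb
import Pool.Agent.V8H50.MA.Main

/-!
The Kodaira dimension of pairs with a linear system along the fibres: the general form.
-/

set_option autoImplicit false
set_option linter.overlappingInstances false
set_option linter.unusedSectionVars false

open FF Pool.Agent.W603.LV Pool.Agent.W602.GT Pool.Agent.W602.Cov Pool.Agent.W602.Cov.G
open Pool.Agent.TH152.AC Pool.Agent.TH152.HY Pool.Agent.TH585.SV Pool.Agent.Y191
open Pool.Agent.Y172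
open Pool.Agent.V8H50.MA (und over_uniq over_not_triv exists_under trdeg_sub comb)

namespace Pool.Agent.V8H50.RL

theorem le_mx {K : Type} [Field K] {n q : ℕ} (A : Fin q → Fin (n + 1) → K) (e : Fin q → ℕ)
    {I : Fin (n + 1) → Fin q} (hI : dI A I ≠ 0) : ∑ k, e (I k) ≤ mx A e := by
  classical
  exact Finset.le_sup (f := fun I : Fin (n + 1) → Fin q => ∑ k, e (I k))
    (Finset.mem_filter.2 ⟨Finset.mem_univ _, hI⟩)

theorem exists_mx {K : Type} [Field K] {n q : ℕ} (A : Fin q → Fin (n + 1) → K) (e : Fin q → ℕ)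
    (h : ∃ I, dI A I ≠ 0) : ∃ I, dI A I ≠ 0 ∧ mx A e = ∑ k, e (I k) := by
  classical
  obtain ⟨I, hI⟩ := h
  obtain ⟨I', hI', h2⟩ := Finset.exists_mem_eq_sup (Finset.univ.filter
    fun I : Fin (n + 1) → Fin q => dI A I ≠ 0)
    ⟨I, Finset.mem_filter.2 ⟨Finset.mem_univ _, hI⟩⟩ fun I => ∑ k, e (I k)
  exact ⟨I', (Finset.mem_filter.1 hI').2, h2⟩

section

variable {K K' : Type} [Field K] [Field K'] [Algebra ℂ K] [Algebra ℂ K'] [Algebra K K']
  [IsScalarTower ℂ K K'] {L : IntermediateField ℂ K} [FiniteDimensional K K'] {d k n q : ℕ}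

/-- the general form of the theorem -/
theorem rel_gen {p a lam M : ℕ} (hess : Algebra.EssFiniteType ℂ K)
    (hp : Algebra.trdeg ℂ L = p) (hK : Algebra.trdeg ℂ K = (p + d : ℕ)) (hM : 0 < M)
    {e : Fin (d + 1) ⊕ Fin k ≃ Fin (n + 1)}
    {A : Fin q → Fin (n + 1) → K'} (hAa : ∀ i k, IsAlgebraic (upF K' L) (A i k))
    {x : Fin (n + 1) → K'} (hx : ∃ k, x k ≠ 0) (hl : ∀ i, mv A x i ≠ 0)
    {S : Fin k → List (Letter d q)}
    {D0 : Fin d → Derivation (upF K' L) K' K'} (hS : MinW e (rs D0) (mv A x) x S)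
    (hspan : ∀ E : Fin d → Derivation (upF K' L) K' K', ∃ B : Matrix (Fin d) (Fin d) K',
      E = fun i => ∑ j, B i j • D0 j) (hI : ∃ I, dI A I ≠ 0) {w : Fin (lam + 1) → Fin q → ℚ}
    {s : Fin (lam + 1) → Fin q → ℕ} {C : Fin (lam + 1) → K'}
    (hs : ∀ b, ∑ i, s b i = (n + 1) * M) (hsw : ∀ b i, (s b i : ℚ) ≤ M * w b i)
    (hsm : ∀ b (e : Fin q → ℕ), ∑ i, s b i * e i ≤ M * mx A e)
    (hCa : ∀ b, IsAlgebraic (upF K' L) (C b))
    (hne : ∃ G : Fin d → Derivation (upF K' L) K' K',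
        fm e A x S M (s 0) (C 0) (rs G) ≠ 0 ∧
        AlgebraicIndependent (upF K' L) (fun i : Fin lam =>
          fm e A x S M (s i.succ) (C i.succ) (rs G) / fm e A x S M (s 0) (C 0) (rs G)))
    {X : Set (Place ℂ K)} {δ : Place ℂ K → ℝ} {Λ : ℝ} (hΛ : (1 + ∑ a, (S a).length : ℕ) ≤ Λ)
    (hH : ∀ b, Hor L A x (w b) Λ X δ) {B g : Place ℂ L → ℝ}
    (hV : ∀ P ∈ X, ∀ (v : Place ℂ L) (e₀ : ℕ), Over P v e₀ → Divisorial p v →
      ∀ (Q : Place ℂ K') (ε : ℕ), Over Q P ε →
      ∀ G : Fin d → Derivation ℂ K' K', (∀ l i k, G l (A i k) = 0) →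
      (∀ l, DerLog Q (G l)) → ∀ b,
        GeR Q (((1 + ∑ a, (S a).length) * M : ℕ) * (ε * (e₀ * g v)))
          (fm e A x S M (s b) (C b) G))
    (hδ : ∀ P ∈ X, ∀ (v : Place ℂ L) (e₀ : ℕ), Over P v e₀ → 1 - δ P ≤ e₀ * (1 - B v))
    (hB : KodairaGe p (und L X) (fun v => B v + g v) a) :
    KodairaGe (p + d) X δ (a + lam) := by
  classical
  obtain ⟨lm, hlm⟩ : ∃ lm : ℕ, lm = 1 + ∑ a, (S a).length := ⟨_, rfl⟩
  have hlm0 : 0 < lm := by omega
  obtain ⟨δ₂, hδ₂⟩ : ∃ δ₂ : Place ℂ K → ℝ, ∀ P, δ₂ P =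
      if h : ∃ (v : Place ℂ L) (e : ℕ), Over P v e then
        -(h.choose_spec.choose * g h.choose) else δ P := ⟨_, fun _ => rfl⟩
  have hv : ∀ (P : Place ℂ K) (v : Place ℂ L) (e₀ : ℕ), Over P v e₀ → δ₂ P = -(e₀ * g v) := by
    intro P v e₀ h
    have h1 : ∃ (v : Place ℂ L) (e : ℕ), Over P v e := ⟨v, e₀, h⟩
    rw [hδ₂, dif_pos h1]
    obtain ⟨h2, h3⟩ := over_uniq h1.choose_spec.choose_spec h
    rw [h3, h2]
  have ht : ∀ P : Place ℂ K, (∀ f ∈ L, f ≠ 0 → P.ord f = 0) → δ₂ P = δ P := by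
    intro P h
    rw [hδ₂, dif_neg]
    rintro ⟨v, e, h1⟩
    exact over_not_triv h1 h
  have hL : Algebra.trdeg L K = d := trdeg_sub hp hK
  have hmr : (0 : ℝ) ≤ M := Nat.cast_nonneg _
  have hlr : (0 : ℝ) ≤ lm := Nat.cast_nonneg _
  obtain ⟨M', hM', θ, hθ, hne'⟩ := push_gen (N := p + d) (X := X) (δ := δ₂) (M := lm * M)
    (Nat.mul_pos hlm0 hM) hL
    (θ' := fun b G => fm e A x S M (s b) (C b) (rs G))
    (fun b => by
      rw [hlm]
      exact fm_pluri M (s b) (C b) hS hspan) (fun P hP hPd G G' hG hG' Q ε hQ b => by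
      have hε0 : (0 : ℝ) ≤ ε := Nat.cast_nonneg _
      by_cases htr : ∀ f ∈ L, f ≠ 0 → P.ord f = 0
      · rw [ht P htr]
        have hup : ∀ f ∈ upF K' L, f ≠ 0 → Q.ord f = 0 := by
          rintro f hf hf0
          obtain ⟨a, ha, rfl⟩ := mem_upF.1 hf
          have ha0 : a ≠ 0 := fun h => hf0 (by rw [h, map_zero])
          rw [hQ.2, htr a ha ha0, mul_zero]
        obtain ⟨c, e', ho⟩ : ∃ c e', MOrd Q A x c e' :=
          exists_mord (fun i k => triv_ge hup (hAa i k)) hx hl
        have hH' := hH b P hP htr Q ε hQ c e' ho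
        obtain ⟨h1, h2⟩ := fm_hor hL hAa hl hS hspan (hs b) (hCa b) hQ htr hG hG' ho
        rw [← hlm] at h1 h2
        by_cases he : ∃ i, e' i ≠ 0
        · rw [if_pos he] at hH'
          obtain ⟨I, hI1, hI2⟩ := exists_mx A e' hI
          rcases h1 I hI1 with h3 | h3
          · exact Or.inl h3
          right
          have h4 : (((M : ℤ) * ∑ k, (e' (I k) : ℤ) - ∑ i, (s b i : ℤ) * e' i -
              (lm * M : ℕ) * (ε : ℤ) : ℤ) : ℝ) ≤
              (Q.ord (fm e A x S M (s b) (C b) (rs G')) : ℝ) := by exact_mod_cast h3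
          refine le_trans ?_ h4
          have h5 : (∑ i, (s b i : ℝ) * e' i) ≤ M * mx A e' := by exact_mod_cast hsm b e'
          have h6 : (∑ i, (s b i : ℝ) * e' i) ≤ M * ∑ i, (w b i : ℝ) * e' i := by
            rw [Finset.mul_sum]
            refine Finset.sum_le_sum fun i _ => ?_
            have h7 : (s b i : ℝ) ≤ M * w b i := by exact_mod_cast hsw b i
            have h8 : (0 : ℝ) ≤ e' i := Nat.cast_nonneg _
            nlinarith
          have h7 : (M : ℝ) * mx A e' = M * ∑ k, (e' (I k) : ℝ) := by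
            rw [hI2]
            push_cast
            ring
          push_cast
          have key : (lm : ℝ) * M * (ε * (1 - δ P)) ≤ M * mx A e' - ∑ i, (s b i : ℝ) * e' i := by
            by_cases hd1 : 0 ≤ 1 - δ P
            · have h8 : (lm : ℝ) * (ε * (1 - δ P)) ≤ Λ * (ε * (1 - δ P)) :=
                mul_le_mul_of_nonneg_right (by rw [hlm]; exact hΛ) (mul_nonneg hε0 hd1)
              have h9 := mul_le_mul_of_nonneg_left (h8.trans hH') hmr
              nlinarith
            · have h8 : (lm : ℝ) * M * (ε * (1 - δ P)) ≤ 0 :=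
                mul_nonpos_of_nonneg_of_nonpos (mul_nonneg hlr hmr)
                  (mul_nonpos_of_nonneg_of_nonpos hε0 (by linarith))
              linarith
          nlinarith
        · rw [if_neg he] at hH'
          push Not at he
          rcases h2 he with h3 | h3
          · exact Or.inl h3
          right
          have h4 : ((((lm * M : ℕ) : ℤ) * (1 - (ε : ℤ)) : ℤ) : ℝ) ≤
              (Q.ord (fm e A x S M (s b) (C b) (rs G')) : ℝ) := by exact_mod_cast h3
          refine le_trans ?_ h4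
          push_cast
          have h5 := mul_le_mul_of_nonneg_left hH' (mul_nonneg hlr hmr)
          nlinarith
      · obtain ⟨v, e₀, h⟩ := exists_under htr
        have hvd : Divisorial p v := Pool.Agent.Y71.NT.t_abh L K p (p + d) hp hK P v e₀ h hPd
        have hkA : ∀ l i k, rs G' l (A i k) = 0 := fun l i k => kills_alg
          (fun z hz => (G' l).map_algebraMap (⟨z, hz⟩ : upF K' L)) (hAa i k)
        have htr' := htr
        push Not at htr
        obtain ⟨a, haL, ha0, hao⟩ := htr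
        have hlogG : ∀ l, DerLog Q (rs G' l) := by
          intro l
          have h2 : DerLog P ((G l).restrictScalars ℂ) := by
            intro f
            by_cases hf : f = 0
            · left
              rw [hf, div_zero]
            · exact log_of_const (a := a) (fun f hf => hG l f hf)
                ((G l).map_algebraMap (⟨a, haL⟩ : L)) hao hf
          exact lift_log hQ h2 (fun f => hG' l f)
        have h1 := hV P hP v e₀ h hvd Q ε hQ (rs G') hkA hlogG b
        rw [← hlm] at h1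
        rw [hv P v e₀ h]
        rcases h1 with h1 | h1
        · exact Or.inl h1
        · right
          refine le_trans (le_of_eq ?_) h1
          ring) hne
  refine comb hess hp hK hB hM' hθ hne' (fun P _ h => (ht P h).le) fun P hP v e₀ h => ?_
  rw [hv P v e₀ h]
  have h1 := hδ P hP v e₀ h
  have h2 : 1 - (e₀ : ℝ) * (1 - (B v + g v)) + -(e₀ * g v) = 1 - e₀ * (1 - B v) := by ring
  rw [h2]
  linarith

end

end Pool.Agent.V8H50.RL
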