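import Pool.Agent.V8H50.RL.Main
import Pool.Agent.Y191.LcForm

/-!
Linear systems along the fibres: the moduli part, and the existence of the forms.
-/

set_option autoImplicit false
set_option linter.overlappingInstances false
set_option linter.unusedSectionVars false

open FF Pool.Agent.W603.LV Pool.Agent.W602.GT Pool.Agent.W602.Cov Pool.Agent.W602.Cov.G
open Pool.Agent.TH152.AC Pool.Agent.TH152.HY Pool.Agent.TH585.SV Pool.Agent.Y191
open Pool.Agent.Y172
open Pool.Agent.V8H50.MA (und over_uniq over_not_triv exists_under trdeg_sub comb)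

namespace Pool.Agent.V8H50.RL

section cnt

variable {n q : ℕ}

theorem cnt_prod {F : Type} [CommMonoid F] {M : ℕ} (I : Fin M → Fin (n + 1) → Fin q)
    (f : Fin q → F) : ∏ t, ∏ k, f (I t k) = ∏ i, f i ^ cnt I i := by
  have h1 : ∀ i, f i ^ cnt I i = ∏ t, ∏ k, if I t k = i then f i else 1 := by
    intro i
    unfold cnt
    rw [← Finset.prod_pow_eq_pow_sum]
    refine Finset.prod_congr rfl fun t _ => ?_
    rw [← Finset.prod_pow_eq_pow_sum]
    refine Finset.prod_congr rfl fun k _ => ?_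
    split_ifs
    · rw [pow_one]
    · rw [pow_zero]
  symm
  calc ∏ i, f i ^ cnt I i = ∏ i, ∏ t, ∏ k, (if I t k = i then f i else 1) :=
        Finset.prod_congr rfl fun i _ => h1 i
    _ = ∏ t, ∏ i, ∏ k, (if I t k = i then f i else 1) := Finset.prod_comm
    _ = ∏ t, ∏ k, f (I t k) := by
        refine Finset.prod_congr rfl fun t _ => ?_
        rw [Finset.prod_comm]
        refine Finset.prod_congr rfl fun k _ => ?_
        rw [Finset.prod_ite_eq Finset.univ (I t k) f, if_pos (Finset.mem_univ _)]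

theorem cnt_sum {M : ℕ} (I : Fin M → Fin (n + 1) → Fin q) : ∑ i, cnt I i = (n + 1) * M := by
  unfold cnt
  rw [Finset.sum_comm]
  have h1 : ∀ t : Fin M, ∑ i, ∑ k, (if I t k = i then 1 else 0) = n + 1 := by
    intro t
    rw [Finset.sum_comm]
    have h2 : ∀ k : Fin (n + 1), ∑ i, (if I t k = i then 1 else 0) = 1 := fun k => by
      rw [Finset.sum_ite_eq Finset.univ (I t k), if_pos (Finset.mem_univ _)]
    rw [Finset.sum_congr rfl fun k _ => h2 k]
    simp
  rw [Finset.sum_congr rfl fun t _ => h1 t, Finset.sum_const, Finset.card_univ, Fintype.card_fin,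
    smul_eq_mul, mul_comm]

/-- the content of a sequence of bases -/
theorem seq_sm {K : Type} [Field K] {A : Fin q → Fin (n + 1) → K} {M : ℕ} {s : Fin q → ℕ}
    {J : Fin M → Fin (n + 1) → Fin q} (hJ0 : ∀ t, dI A (J t) ≠ 0)
    (hJ : ∀ (R : Type) [CommMonoid R] (f : Fin q → R), ∏ t, ∏ k, f (J t k) = ∏ i, f i ^ s i)
    (e : Fin q → ℕ) : ∑ i, s i * e i ≤ M * mx A e := by
  have h1 := hJ (Multiplicative ℕ) fun i => Multiplicative.ofAdd (e i)
  have h2 := congrArg Multiplicative.toAdd h1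
  rw [toAdd_prod, toAdd_prod] at h2
  simp only [toAdd_prod, toAdd_pow, toAdd_ofAdd, smul_eq_mul] at h2
  rw [← h2]
  calc ∑ t, ∑ k, e (J t k) ≤ ∑ _t : Fin M, mx A e := Finset.sum_le_sum fun t _ => le_mx A e (hJ0 t)
    _ = M * mx A e := by rw [Finset.sum_const, Finset.card_univ, Fintype.card_fin, smul_eq_mul]

/-- sequences of bases with given multiplicities -/
theorem exists_J {K : Type} [Field K] {A : Fin q → Fin (n + 1) → K} {w : Fin q → ℚ}
    (hw : ∀ S : Finset (Fin q), Module.finrank K ↥(Submodule.span K (A '' (S : Set (Fin q)))) ≤ n →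
      ∑ i ∈ S, w i ≤ Module.finrank K ↥(Submodule.span K (A '' (S : Set (Fin q)))))
    {M : ℕ} (hM : 0 < M) {s : Fin q → ℕ} (hs : ∑ i, s i = (n + 1) * M)
    (hsw : ∀ i, (s i : ℚ) ≤ M * w i) : ∃ J : Fin M → Fin (n + 1) → Fin q,
      (∀ t, dI A (J t) ≠ 0) ∧
      ∀ (R : Type) [CommMonoid R] (f : Fin q → R), ∏ t, ∏ k, f (J t k) = ∏ i, f i ^ s i := by
  refine exists_bases hM A hs fun S => ?_
  by_cases hS : Module.finrank K ↥(Submodule.span K (A '' (S : Set (Fin q)))) ≤ n
  · have h2 := hw S hS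
    have h3 : (∑ i ∈ S, (s i : ℚ)) ≤ M * ∑ i ∈ S, w i := by
      rw [Finset.mul_sum]
      exact Finset.sum_le_sum fun i _ => hsw i
    have h4 : ((∑ i ∈ S, s i : ℕ) : ℚ) ≤
        ((M * Module.finrank K ↥(Submodule.span K (A '' (S : Set (Fin q)))) : ℕ) : ℚ) := by
      push_cast
      exact h3.trans (mul_le_mul_of_nonneg_left h2 (Nat.cast_nonneg _))
    exact_mod_cast h4
  · have h1 : Module.finrank K ↥(Submodule.span K (A '' (S : Set (Fin q)))) ≤ n + 1 := by
      refine (Submodule.finrank_le _).trans (le_of_eq ?_)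
      rw [Module.finrank_fintype_fun_eq_card, Fintype.card_fin]
    have h2 : Module.finrank K ↥(Submodule.span K (A '' (S : Set (Fin q)))) = n + 1 := by omega
    rw [h2, mul_comm M, ← hs]
    exact Finset.sum_le_sum_of_subset (Finset.subset_univ S)

end cnt

section

variable {K K' : Type} [Field K] [Field K'] [Algebra ℂ K] [Algebra ℂ K'] [Algebra K K']
  [IsScalarTower ℂ K K'] {L : IntermediateField ℂ K} {d k n q : ℕ}

/-- the estimate of the form of `I` at the places over the places of the base -/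
theorem fm_mod {M : ℕ} (e : Fin (d + 1) ⊕ Fin k ≃ Fin (n + 1))
    {A : Fin q → Fin (n + 1) → K'} {x : Fin (n + 1) → K'} (hl : ∀ i, mv A x i ≠ 0)
    (S : Fin k → List (Letter d q)) {I : Fin M → Fin (n + 1) → Fin q}
    (hI : ∀ t, dI A (I t) ≠ 0) {v : Place ℂ L} {g : ℝ} (hg : ModGe L A I v g)
    {P : Place ℂ K} {e₀ : ℕ} (hP : Over P v e₀) {Q : Place ℂ K'} {ε : ℕ} (hQ : Over Q P ε)
    {G : Fin d → Derivation ℂ K' K'} (hG : ∀ l i k, G l (A i k) = 0)
    (hlog : ∀ l, DerLog Q (G l)) :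
    GeR Q (M * (ε * (e₀ * g))) (fm e A x S M (cnt I) (∏ t, dI A (I t)) G) := by
  obtain ⟨J, hJ0, hJc, hJ⟩ := hg Q (ε * e₀) (Nat.mul_pos hQ.1 hP.1) (fun f => by
    rw [hQ.2]
    have h1 := hP.2 f
    change P.ord (f : K) = _ at h1
    rw [h1]
    push_cast
    ring)
  have hCI : ∏ t, dI A (I t) ≠ 0 := Finset.prod_ne_zero_iff.2 fun t _ => hI t
  have hCJ : ∏ t, dI A (J t) ≠ 0 := Finset.prod_ne_zero_iff.2 fun t _ => hJ0 t
  have h1 := fm_log hlog e hG hl S (J := J) (s := cnt I) (M := M) (fun f => by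
    rw [cnt_prod]
    exact Finset.prod_congr rfl fun i _ => by rw [hJc])
  have h2 : fm e A x S M (cnt I) (∏ t, dI A (I t)) G =
      ((∏ t, dI A (I t)) / ∏ t, dI A (J t)) *
        fm e A x S M (cnt I) (∏ t, dI A (J t)) G := by
    unfold fm
    field_simp
  rw [h2]
  by_cases h3 : fm e A x S M (cnt I) (∏ t, dI A (J t)) G = 0
  · left
    rw [h3, mul_zero]
  right
  have h4 := h1.resolve_left h3
  rw [Q.ord_mul (div_ne_zero hCI hCJ) h3, Q.ord_div hCI hCJ]
  push_cast at hJ ⊢
  have h5 : (0 : ℝ) ≤ (Q.ord (fm e A x S M (cnt I) (∏ t, dI A (J t)) G) : ℝ) := by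
    exact_mod_cast h4
  have h6 : (M : ℝ) * (ε * (e₀ * g)) = M * (ε * e₀ * g) := by ring
  linarith

/-- the product of two forms -/
theorem fm_mul {K : Type} [Field K] [Algebra ℂ K] (e : Fin (d + 1) ⊕ Fin k ≃ Fin (n + 1))
    (A : Fin q → Fin (n + 1) → K) (x : Fin (n + 1) → K) (S : Fin k → List (Letter d q))
    {M M₁ : ℕ} (s s₁ : Fin q → ℕ) (C C₁ : K) (T : ℕ) (G : Fin d → Derivation ℂ K K) :
    fm e A x S (T * M + M₁) (fun i => T * s i + s₁ i) (C ^ T * C₁) G =
      fm e A x S M s C G ^ T * fm e A x S M₁ s₁ C₁ G := by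
  unfold fm
  have h1 : ∏ i, mv A x i ^ (T * s i + s₁ i) =
      (∏ i, mv A x i ^ s i) ^ T * ∏ i, mv A x i ^ s₁ i := by
    rw [← Finset.prod_pow, ← Finset.prod_mul_distrib]
    refine Finset.prod_congr rfl fun i _ => ?_
    rw [pow_add, mul_comm T, pow_mul]
  rw [h1, div_pow, mul_pow, pow_add, mul_comm T, pow_mul, div_mul_div_comm]
  congr 1
  ring

end

section

variable {K : Type} [Field K] [Algebra ℂ K] {L : IntermediateField ℂ K} {d k n q : ℕ}

/-- **Minimal words for a linear system.** -/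
theorem exists_setup (e : Fin (d + 1) ⊕ Fin k ≃ Fin (n + 1)) {A : Fin q → Fin (n + 1) → K}
    {x : Fin (n + 1) → K}
    (htr : Algebra.trdeg L K = d)
    (hgf : Algebra.IsAlgebraic (IntermediateField.adjoin L {z | ∃ i j, z = x i / x j}) K)
    (hAa : ∀ i k, IsAlgebraic L (A i k)) (hl : ∀ i, mv A x i ≠ 0)
    (hli : ∀ c : Fin (n + 1) → K, (∀ j, IsAlgebraic L (c j)) → ∑ j, c j * x j = 0 → c = 0)
    {I : Fin (n + 1) → Fin q} (hI : dI A I ≠ 0) :
    ∃ (κ : Fin d → Fin n) (S : Fin k → List (Letter d q)) (D0 : Fin d → Derivation L K K),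
      Function.Injective κ ∧
      IsTranscendenceBasis L (fun b => mv A x (I (κ b).succ) / mv A x (I 0)) ∧
      MinW e (rs D0) (mv A x) x S ∧
      ∀ E : Fin d → Derivation L K K, ∃ B : Matrix (Fin d) (Fin d) K,
        E = fun i => ∑ j, B i j • D0 j := by
  obtain ⟨κ, hκ, ht⟩ := members_basis htr hgf hAa hl hI
  obtain ⟨D0, hD0, hspan⟩ := exists_frame_dual ht
  have hkill : ∀ l, Kills (rs D0 l) L := fun l z hz => (D0 l).map_algebraMap (⟨z, hz⟩ : L)
  have hGA : ∀ l i k, rs D0 l (A i k) = 0 := fun l i k => kills_alg (hkill l) (hAa i k)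
  obtain ⟨⟨I0, hI0⟩, hblk⟩ := frame_block hl (G := rs D0) (fun i b => hD0 i b) hGA
  obtain ⟨S, hS⟩ := exists_minW' e hl hI0
    (fun c hc h => hli c (fun j => frame_alg ht hD0 fun l => hc j l) h) hblk
  exact ⟨κ, S, D0, hκ, ht, hS, hspan⟩

/-- algebraic independence and constants -/
theorem ind_const {lam : ℕ} (htr : Algebra.trdeg L K = d) {f c : Fin lam → K}
    (hf : AlgebraicIndependent L f) (hc : ∀ i, IsAlgebraic L (c i)) (hc0 : ∀ i, c i ≠ 0) :
    AlgebraicIndependent L (fun i => c i * f i) := by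
  have hcL : CharZero L := charZero_of_injective_algebraMap (algebraMap ℂ L).injective
  obtain ⟨κ, s, hs⟩ := exists_basis_ext hf
  have hfin : Finite (Fin lam ⊕ κ) := by
    have h1 := hs.cardinalMk_eq_trdeg
    rw [htr] at h1
    refine Cardinal.lt_aleph0_iff_finite.1 ?_
    rw [h1]
    exact Cardinal.natCast_lt_aleph0
  have h1 : IsTranscendenceBasis L (Sum.elim (fun i => c i * f i) s) := by
    refine basis_of_gen hs fun D hD h => ?_
    refine ext_over hs hD (fun x _ => rfl) fun i => ?_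
    rcases i with i | i
    · have h2 := h (Sum.inl i)
      change D (c i * f i) = 0 at h2
      rw [D.leibniz, kills_alg hD (hc i), smul_zero, add_zero, smul_eq_mul] at h2
      exact (mul_eq_zero.1 h2).resolve_left (hc0 i)
    · exact h (Sum.inr i)
  exact h1.1.comp Sum.inl Sum.inl_injective

theorem mv_ne {A : Fin q → Fin (n + 1) → K} {x : Fin (n + 1) → K}
    (hAa : ∀ i k, IsAlgebraic L (A i k))
    (hli : ∀ c : Fin (n + 1) → K, (∀ j, IsAlgebraic L (c j)) → ∑ j, c j * x j = 0 → c = 0)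
    {i : Fin q} (hi : ∃ k, A i k ≠ 0) : mv A x i ≠ 0 := by
  intro h0
  obtain ⟨k, hk⟩ := hi
  exact hk (congrFun (hli (A i) (hAa i) h0) k)

/-- a basis of members with positive weights -/
theorem pos_basis' {A : Fin q → Fin (n + 1) → K} {w : Fin q → ℚ}
    (hw0 : ∀ i, 0 ≤ w i) (hws : (n + 1 : ℚ) ≤ ∑ i, w i)
    (hw : ∀ S : Finset (Fin q), Module.finrank K ↥(Submodule.span K (A '' (S : Set (Fin q)))) ≤ n →
      ∑ i ∈ S, w i ≤ Module.finrank K ↥(Submodule.span K (A '' (S : Set (Fin q))))) :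
    ∃ I : Fin (n + 1) → Fin q, dI A I ≠ 0 ∧ ∀ k, 0 < w (I k) := by
  classical
  obtain ⟨S, hS⟩ : ∃ S, S = Finset.univ.filter fun i => 0 < w i := ⟨_, rfl⟩
  have h1 : ∑ i ∈ S, w i = ∑ i, w i := by
    rw [hS, Finset.sum_filter]
    refine Finset.sum_congr rfl fun i _ => ?_
    split_ifs with h
    · rfl
    · exact (le_antisymm (hw0 i) (not_lt.1 h))
  have hle : Module.finrank K ↥(Submodule.span K (A '' (S : Set (Fin q)))) ≤ n + 1 := by
    refine (Submodule.finrank_le _).trans (le_of_eq ?_)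
    rw [Module.finrank_fintype_fun_eq_card, Fintype.card_fin]
  have h2 : Module.finrank K ↥(Submodule.span K (A '' (S : Set (Fin q)))) = n + 1 := by
    refine le_antisymm hle ?_
    by_contra hcon
    push Not at hcon
    have h3 := hw S (by omega)
    rw [h1] at h3
    have h4 := hws.trans h3
    have h5 : (Module.finrank K ↥(Submodule.span K (A '' (S : Set (Fin q)))) : ℚ) + 1 ≤ n + 1 := by
      exact_mod_cast hcon
    linarith
  obtain ⟨f, hf, -, hli⟩ := Submodule.exists_fun_fin_finrank_span_eq K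
    (A '' (S : Set (Fin q)))
  choose I hI hIf using hf
  have h3 : LinearIndependent K fun k : Fin (n + 1) => A (I (Fin.cast h2.symm k)) := by
    have h4 := hli.comp (Fin.cast h2.symm) (Fin.cast_injective _)
    have h5 : (fun k : Fin (n + 1) => A (I (Fin.cast h2.symm k))) =
        f ∘ (Fin.cast h2.symm) := funext fun k => hIf _
    rw [h5]
    exact h4
  refine ⟨fun k => I (Fin.cast h2.symm k), ?_, fun k => ?_⟩
  · intro h0
    have h2 := (Matrix.linearIndependent_rows_iff_isUnit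
      (A := Matrix.of fun k a => A (I (Fin.cast h2.symm k)) a)).1 h3
    unfold dI at h0
    rw [Matrix.isUnit_iff_isUnit_det, h0] at h2
    exact not_isUnit_zero h2
  · have h5 : ∀ i ∈ S, 0 < w i := by
      intro i hi
      rw [hS] at hi
      exact (Finset.mem_filter.1 hi).2
    exact h5 _ (Finset.mem_coe.1 (hI (Fin.cast h2.symm k)))

theorem inj_of_dI {A : Fin q → Fin (n + 1) → K} {I : Fin (n + 1) → Fin q} (hI : dI A I ≠ 0) :
    Function.Injective I := by
  intro a b hab
  by_contra hne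
  exact hI (Matrix.det_zero_of_row_eq hne (by
    funext k
    rw [Matrix.of_apply, Matrix.of_apply, hab]))

end

end Pool.Agent.V8H50.RL
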