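import Pool.Agent.TH585.SV.Ord

/-!
Minimal tuples of words for coordinates which are linearly independent over the constants of the
vector fields.
-/

set_option autoImplicit false

open FF Pool.Agent.W603.LV Pool.Agent.W602.GT Pool.Agent.W602.Cov Pool.Agent.W602.Cov.G
open Pool.Agent.TH152.AC Pool.Agent.TH152.HY Pool.Agent.TH585.SV

namespace Pool.Agent.V8H50.RL

variable {d k n q : ℕ} {K : Type} [Field K] [Algebra ℂ K]

/-- the coordinates `x` are linearly independent over the constants of the vector fields `D` -/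
def LiC (D : Fin d → Derivation ℂ K K) (x : Fin (n + 1) → K) : Prop :=
  ∀ c : Fin (n + 1) → K, (∀ j l, D l (c j) = 0) → ∑ j, c j * x j = 0 → c = 0

/-- **Subspaces which are stable under the vector fields.** -/
theorem stable_top' {D : Fin d → Derivation ℂ K K} {x : Fin (n + 1) → K} (hli : LiC D x)
    (W : Submodule K (Fin (n + 1) → K))
    (hx : x ∈ W) (hW : ∀ l, ∀ y ∈ W, (fun j => D l (y j)) ∈ W) : W = ⊤ := by
  classical
  by_contra hcon
  obtain ⟨f, hf0, hf⟩ := Submodule.exists_le_ker_of_lt_top W (lt_top_iff_ne_top.mpr hcon)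
  have hfs : ∀ y, f y = ∑ j, f (Pi.single j 1) * y j := by
    intro y
    rw [LinearMap.pi_apply_eq_sum_univ f y]
    refine Finset.sum_congr rfl fun j _ => ?_
    rw [smul_eq_mul, mul_comm]
    congr 2
    funext k
    simp [Pi.single_apply, eq_comm]
  have hex : ∃ N : ℕ, ∃ φ : Fin (n + 1) → K, φ ≠ 0 ∧ (∀ y ∈ W, ∑ j, φ j * y j = 0) ∧
      (Finset.univ.filter fun j => φ j ≠ 0).card = N := by
    refine ⟨_, fun j => f (Pi.single j 1), ?_, fun y hy => ?_, rfl⟩
    · intro h0
      apply hf0
      apply LinearMap.ext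
      intro y
      rw [hfs y, LinearMap.zero_apply]
      exact Finset.sum_eq_zero fun j _ => by rw [congrFun h0 j, Pi.zero_apply, zero_mul]
    · rw [← hfs y]
      exact hf hy
  obtain ⟨φ, hφ0, hφ, hφN⟩ := Nat.find_spec hex
  obtain ⟨j0, hj0⟩ := Function.ne_iff.mp hφ0
  have hj0' : φ j0 ≠ 0 := hj0
  set ψ : Fin (n + 1) → K := fun j => φ j / φ j0 with hψ
  have hψ1 : ψ j0 = 1 := div_self hj0'
  have hψW : ∀ y ∈ W, ∑ j, ψ j * y j = 0 := by
    intro y hy
    have h1 : ∑ j, ψ j * y j = (φ j0)⁻¹ * ∑ j, φ j * y j := by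
      rw [Finset.mul_sum]
      refine Finset.sum_congr rfl fun j _ => ?_
      simp only [hψ]
      field_simp
    rw [h1, hφ y hy, mul_zero]
  have hD0 : ∀ l j, D l (ψ j) = 0 := by
    intro l
    by_contra hne
    push Not at hne
    obtain ⟨j1, hj1⟩ := hne
    have h1 : (Finset.univ.filter fun j => D l (ψ j) ≠ 0).card < Nat.find hex := by
      rw [← hφN]
      apply Finset.card_lt_card
      refine ⟨fun j hj => ?_, fun hle => ?_⟩
      · rw [Finset.mem_filter] at hj ⊢
        refine ⟨Finset.mem_univ _, fun h0 => hj.2 ?_⟩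
        simp only [hψ]
        rw [h0, zero_div, map_zero]
      · have h2 := hle (Finset.mem_filter.mpr ⟨Finset.mem_univ j0, hj0'⟩)
        rw [Finset.mem_filter] at h2
        apply h2.2
        rw [hψ1, (D l).map_one_eq_zero]
    apply Nat.find_min hex h1
    refine ⟨fun j => D l (ψ j), fun h0 => hj1 (congrFun h0 j1), fun y hy => ?_, rfl⟩
    have h2 := congrArg (D l) (hψW y hy)
    rw [map_sum, map_zero] at h2
    simp only [Derivation.leibniz, smul_eq_mul] at h2
    rw [Finset.sum_add_distrib, hψW _ (hW l y hy), zero_add] at h2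
    rw [← h2]
    exact Finset.sum_congr rfl fun j _ => mul_comm _ _
  have h1 := congrFun (hli ψ (fun j l => hD0 l j) (hψW x hx)) j0
  rw [hψ1] at h1
  exact one_ne_zero h1

/-- words of small lengths -/
theorem greedy2' {D : Fin d → Derivation ℂ K K}
    {g : Fin q → K} (hg : ∀ i, g i ≠ 0) {I0 : Fin (d + 1) → Fin q}
    (hI : bw D (fun j => g (I0 j)) ≠ 0) {x : Fin (n + 1) → K} (hli : LiC D x)
    (hblk : LinearIndependent K (blk D x)) (j : ℕ) (hj : d + j ≤ n) :
    ∃ S : Fin j → List (Letter d q), LinearIndependent K (fun a =>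
      (Submodule.span K (Set.range (blk D x))).mkQ (wv D g x (S a))) ∧
      ∀ a, (S a).length ≤ a + 2 := by
  classical
  set U := Submodule.span K (Set.range (blk D x)) with hU
  have hUV : U ≤ V D g x 2 := by
    rw [hU, Submodule.span_le]
    rintro _ ⟨i, rfl⟩
    exact blk_mem hg hI x i
  have hrank : Module.finrank K ((Fin (n + 1) → K) ⧸ U) + (d + 1) = n + 1 := by
    have h1 := Submodule.finrank_quotient_add_finrank U
    have h2 : Module.finrank K U = d + 1 := by
      rw [hU, finrank_span_eq_card hblk, Fintype.card_fin]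
    rw [h2, Module.finrank_fin_fun] at h1
    exact h1
  induction j with
  | zero => exact ⟨Fin.elim0, linearIndependent_empty_type, fun a => a.elim0⟩
  | succ j ih =>
    obtain ⟨S, hS, hlen⟩ := ih (by omega)
    set W := Submodule.span K (Set.range fun a => U.mkQ (wv D g x (S a))) with hW
    have hex : ∃ w : List (Letter d q), w.length ≤ j + 2 ∧ U.mkQ (wv D g x w) ∉ W := by
      by_contra hcon
      push Not at hcon
      have h1 : V D g x (j + 3) ≤ W.comap U.mkQ := by
        unfold V
        rw [Submodule.span_le]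
        rintro _ ⟨w, hw, rfl⟩
        have hw' : w.length < j + 3 := hw
        exact hcon w (by omega)
      have h2 : W.comap U.mkQ ≤ V D g x (j + 2) := by
        have h3 : W = (Submodule.span K (Set.range fun a => wv D g x (S a))).map U.mkQ := by
          rw [hW, Submodule.map_span, ← Set.range_comp]
          rfl
        rw [h3, Submodule.comap_map_mkQ]
        refine sup_le (hUV.trans (V_mono D g x (by omega))) ?_
        rw [Submodule.span_le]
        rintro _ ⟨a, rfl⟩
        refine wv_mem D g x ?_
        have := hlen a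
        have := a.2
        omega
      have h3 : V D g x (j + 2) = ⊤ := by
        refine stable_top' hli _ ?_ ?_
        · have h4 := wv_mem D g x (w := []) (k := j + 2) (by simp)
          rwa [wv_nil] at h4
        · intro l y hy
          obtain ⟨c, hc⟩ := der_of_op hg hI l
          have e : (fun j => D l (y j)) = ∑ k, c k • opv D g (I0, k) y := by
            funext j
            rw [Finset.sum_apply, hc (y j)]
            rfl
          rw [e]
          exact Submodule.sum_mem _ fun k _ => Submodule.smul_mem _ _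
            (h2 (h1 (opv_mem D g x _ hy)))
      have h5 : W = ⊤ := by
        have h6 : W.comap U.mkQ = ⊤ := by
          rw [eq_top_iff, ← h3]
          exact (V_mono D g x (by omega)).trans h1
        have h7 := Submodule.map_comap_eq_of_surjective (Submodule.mkQ_surjective U) W
        rw [← h7, h6, Submodule.map_top, Submodule.range_mkQ]
      have h6 : Module.finrank K W = j := by
        rw [hW, finrank_span_eq_card hS, Fintype.card_fin]
      rw [h5, finrank_top] at h6
      omega
    obtain ⟨w, hw, hwW⟩ := hex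
    refine ⟨Fin.snoc S w, ?_, ?_⟩
    · have e : (fun a => U.mkQ (wv D g x ((Fin.snoc S w : Fin (j + 1) → List (Letter d q)) a))) =
          Fin.snoc (fun a => U.mkQ (wv D g x (S a))) (U.mkQ (wv D g x w)) := by
        funext a
        refine Fin.lastCases ?_ (fun a => ?_) a
        · simp
        · simp
      rw [e, linearIndependent_finSnoc]
      exact ⟨hS, hwW⟩
    · intro a
      refine Fin.lastCases ?_ (fun a => ?_) a
      · simpa using hw
      · simpa using hlen a

/-- **A minimal tuple of words.** -/
theorem exists_minW' (e : Fin (d + 1) ⊕ Fin k ≃ Fin (n + 1)) {D : Fin d → Derivation ℂ K K}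
    {g : Fin q → K} (hg : ∀ i, g i ≠ 0) {I0 : Fin (d + 1) → Fin q}
    (hI : bw D (fun j => g (I0 j)) ≠ 0) {x : Fin (n + 1) → K} (hli : LiC D x)
    (hblk : LinearIndependent K (blk D x)) :
    ∃ S : Fin k → List (Letter d q), MinW e D g x S := by
  classical
  have hcard : d + k = n := by
    have := Fintype.card_congr e
    simp only [Fintype.card_sum, Fintype.card_fin] at this
    omega
  obtain ⟨S1, hS1, hlen⟩ := greedy2' hg hI hli hblk k hcard.le
  have hdet : phi e D x (fun a => wv D g x (S1 a)) ≠ 0 := by
    refine dt_ne_zero e ?_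
    have h1 := LinearIndependent.sumElim_of_quotient
      (M' := Submodule.span K (Set.range (blk D x)))
      (f := fun i => ⟨blk D x i, Submodule.subset_span ⟨i, rfl⟩⟩)
      (LinearIndependent.of_comp (Submodule.subtype _) hblk) _ hS1
    exact h1
  have hex : ∃ N : ℕ, ∃ S : Fin k → List (Letter d q),
      phi e D x (fun a => wv D g x (S a)) ≠ 0 ∧ ∑ a, (S a).length = N := ⟨_, S1, hdet, rfl⟩
  obtain ⟨S, hS, hN⟩ := Nat.find_spec hex
  refine ⟨S, hS, fun S' hS' => ?_, ?_⟩
  · by_contra hne
    rw [hN] at hS'
    exact Nat.find_min hex hS' ⟨S', hne, rfl⟩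
  · have h1 : Nat.find hex ≤ ∑ a, (S1 a).length := Nat.find_min' hex ⟨S1, hdet, rfl⟩
    have h2 : ∑ a, (S1 a).length ≤ ∑ a : Fin k, ((a : ℕ) + 2) :=
      Finset.sum_le_sum fun a _ => hlen a
    rw [hN, ← sum_val2 k]
    omega

end Pool.Agent.V8H50.RL
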